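import Pool.Agent.Lib.H45Glue.DRC

/-!
# Graphs which become forests when a few vertices of one class are deleted
-/

namespace Pool.Agent.Lib.H45Glue

open SimpleGraph Finset Pool.Agent.Lib.Helper15.Glue

/-- A finite nonempty acyclic graph has a vertex with at most one neighbour. -/
lemma exists_ncard_le_one {W : Type*} [Finite W] [Nonempty W] {K : SimpleGraph W}
    (h : K.IsAcyclic) : ∃ x, {y | K.Adj x y}.ncard ≤ 1 := by
  classical
  have : Fintype W := Fintype.ofFinite W
  obtain ⟨T, hKT, -, hT⟩ := (connected_top (V := W)).exists_isTree_le_of_le_of_isAcyclic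
    (H := K) le_top h
  rcases subsingleton_or_nontrivial W with hs | hs
  · obtain ⟨x⟩ := ‹Nonempty W›
    refine ⟨x, Set.ncard_le_one_iff_subsingleton.2 ?_⟩
    intro a _ b _
    exact Subsingleton.elim a b
  · obtain ⟨x, hx⟩ := hT.exists_vert_degree_one_of_nontrivial
    refine ⟨x, ?_⟩
    have h1 : {y | K.Adj x y} ⊆ (T.neighborFinset x : Set W) := by
      intro y hy
      simpa using hKT hy
    refine (Set.ncard_le_ncard h1 (Set.toFinite _)).trans ?_
    rw [Set.ncard_coe_finset, card_neighborFinset_eq_degree, hx]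

lemma exists_leaf {W : Type*} {B : SimpleGraph W} {S : Set W} (h : (B.induce S).IsAcyclic)
    {T : Finset W} (hT : (T : Set W) ⊆ S) (hne : T.Nonempty) :
    ∃ x ∈ T, ∀ y ∈ T, ∀ z ∈ T, B.Adj x y → B.Adj x z → y = z := by
  classical
  have h1 : (B.induce (T : Set W)).IsAcyclic :=
    h.comap (copyInduceLE B hT).toHom (copyInduceLE B hT).injective
  have : Nonempty (T : Set W) := hne.to_subtype
  obtain ⟨x, hx⟩ := exists_ncard_le_one h1
  refine ⟨x.1, x.2, fun y hy z hz hxy hxz => ?_⟩
  have h2 := Set.ncard_le_one_iff_subsingleton.1 hx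
  exact congrArg Subtype.val (@h2 ⟨y, hy⟩ hxy ⟨z, hz⟩ hxz)

variable {V : Type*}

open Classical in
/-- The number of adjacent pairs between two sets. -/
noncomputable def crossN (G : SimpleGraph V) (A P : Finset V) : ℕ :=
  #((A ×ˢ P).filter (fun p => G.Adj p.1 p.2))

open Classical in
lemma crossN_erase_left (G : SimpleGraph V) (A P : Finset V) (a : V) :
    crossN G A P ≤ crossN G (A.erase a) P + #(P.filter (fun b => G.Adj a b)) := by
  have h1 : (A ×ˢ P).filter (fun p => G.Adj p.1 p.2) ⊆
      ((A.erase a) ×ˢ P).filter (fun p => G.Adj p.1 p.2) ∪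
        (P.filter (fun b => G.Adj a b)).image (fun b => (a, b)) := by
    rintro ⟨x, y⟩ hxy
    simp only [mem_filter, mem_product, mem_union, mem_image, mem_erase, Prod.mk.injEq] at hxy ⊢
    by_cases hx : x = a
    · right
      subst hx
      exact ⟨y, ⟨hxy.1.2, hxy.2⟩, rfl, rfl⟩
    · left
      exact ⟨⟨⟨hx, hxy.1.1⟩, hxy.1.2⟩, hxy.2⟩
  exact (card_le_card h1).trans ((card_union_le _ _).trans
    (Nat.add_le_add_left card_image_le _))

open Classical in
lemma crossN_erase_right (G : SimpleGraph V) (A P : Finset V) (b : V) :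
    crossN G A P ≤ crossN G A (P.erase b) + #(A.filter (fun a => G.Adj a b)) := by
  have h1 : (A ×ˢ P).filter (fun p => G.Adj p.1 p.2) ⊆
      (A ×ˢ (P.erase b)).filter (fun p => G.Adj p.1 p.2) ∪
        (A.filter (fun a => G.Adj a b)).image (fun a => (a, b)) := by
    rintro ⟨x, y⟩ hxy
    simp only [mem_filter, mem_product, mem_union, mem_image, mem_erase, Prod.mk.injEq] at hxy ⊢
    by_cases hy : y = b
    · right
      subst hy
      exact ⟨x, ⟨hxy.1.1, hxy.2⟩, rfl, rfl⟩
    · left
      exact ⟨⟨hxy.1.1, ⟨hy, hxy.1.2⟩⟩, hxy.2⟩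
  exact (card_le_card h1).trans ((card_union_le _ _).trans
    (Nat.add_le_add_left card_image_le _))

open Classical in
/-- Two classes with many adjacent pairs contain subsets with large minimum degree. -/
lemma exists_core (G : SimpleGraph V) (k : ℕ) : ∀ (m : ℕ) (A P : Finset V), #A + #P = m →
    k * (#A + #P) < crossN G A P →
    ∃ A₀ ⊆ A, ∃ P₀ ⊆ P, A₀.Nonempty ∧ P₀.Nonempty ∧
      (∀ a ∈ A₀, k < #(P₀.filter (fun b => G.Adj a b))) ∧
      ∀ b ∈ P₀, k < #(A₀.filter (fun a => G.Adj a b)) := by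
  intro m
  induction m with
  | zero =>
    intro A P h0 h1
    exfalso
    have hA : A = ∅ := card_eq_zero.1 (by omega)
    subst hA
    simp [crossN] at h1
  | succ m ih =>
    intro A P hm h1
    by_cases hA : ∃ a ∈ A, #(P.filter (fun b => G.Adj a b)) ≤ k
    · obtain ⟨a, ha, hak⟩ := hA
      have h2 := crossN_erase_left G A P a
      have h3 := card_erase_add_one ha
      obtain ⟨A₀, hA₀, P₀, hP₀, h4⟩ := ih (A.erase a) P (by omega) (by
        have h5 : k * (#A + #P) = k * (#(A.erase a) + #P) + k := by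
          rw [← h3]
          ring
        omega)
      exact ⟨A₀, hA₀.trans (erase_subset _ _), P₀, hP₀, h4⟩
    by_cases hP : ∃ b ∈ P, #(A.filter (fun a => G.Adj a b)) ≤ k
    · obtain ⟨b, hb, hbk⟩ := hP
      have h2 := crossN_erase_right G A P b
      have h3 := card_erase_add_one hb
      obtain ⟨A₀, hA₀, P₀, hP₀, h4⟩ := ih A (P.erase b) (by omega) (by
        have h5 : k * (#A + #P) = k * (#A + #(P.erase b)) + k := by
          rw [← h3]
          ring
        omega)
      exact ⟨A₀, hA₀, P₀, hP₀.trans (erase_subset _ _), h4⟩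
    push Not at hA hP
    have h2 : ((A ×ˢ P).filter (fun p => G.Adj p.1 p.2)).Nonempty := by
      rw [← card_pos]
      exact lt_of_le_of_lt (Nat.zero_le _) h1
    obtain ⟨⟨x, y⟩, hxy⟩ := h2
    rw [mem_filter, mem_product] at hxy
    exact ⟨A, subset_rfl, P, subset_rfl, ⟨x, hxy.1.1⟩, ⟨y, hxy.1.2⟩, hA, hP⟩

open Classical in
/-- Greedy embedding of a forest with a prescribed orientation. -/
lemma forest_embed {W : Type*} {B : SimpleGraph W} {R F : Set W}
    (hR : ∀ x y, B.Adj x y → (x ∈ R ↔ y ∉ R)) (hF : (B.induce F).IsAcyclic)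
    (G : SimpleGraph V) (k : ℕ) (A P : Finset V) (hA : A.Nonempty) (hP : P.Nonempty)
    (hAd : ∀ a ∈ A, k < #(P.filter (fun b => G.Adj a b)))
    (hPd : ∀ b ∈ P, k < #(A.filter (fun a => G.Adj a b))) :
    ∀ (m : ℕ) (S : Finset W), #S = m → m ≤ k → (S : Set W) ⊆ F →
      ∃ f : W → V, (∀ x ∈ S, x ∈ R → f x ∈ P) ∧ (∀ x ∈ S, x ∉ R → f x ∈ A) ∧
        (∀ x ∈ S, ∀ y ∈ S, f x = f y → x = y) ∧
        ∀ x ∈ S, ∀ y ∈ S, B.Adj x y → G.Adj (f x) (f y) := by
  intro m
  induction m with
  | zero =>
    intro S hS _ _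
    obtain ⟨a, -⟩ := hA
    have hS0 : S = ∅ := card_eq_zero.1 hS
    subst hS0
    exact ⟨fun _ => a, by simp, by simp, by simp, by simp⟩
  | succ m ih =>
    intro S hS hmk hSF
    have hne : S.Nonempty := by
      rw [← card_pos]
      omega
    obtain ⟨x, hx, hleaf⟩ := exists_leaf hF hSF hne
    have hc := card_erase_add_one hx
    obtain ⟨f, hfP, hfA, hfi, hfG⟩ := ih (S.erase x) (by omega) (by omega)
      (fun y hy => hSF (mem_of_mem_erase hy))
    -- candidates for the image of `x`
    obtain ⟨C, hC, hCR, hCA, hCG⟩ : ∃ C : Finset V, k < #C ∧ (x ∈ R → C ⊆ P) ∧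
        (x ∉ R → C ⊆ A) ∧ ∀ z ∈ C, ∀ y ∈ S.erase x, B.Adj x y → G.Adj z (f y) := by
      by_cases hy : ∃ y ∈ S.erase x, B.Adj x y
      · obtain ⟨y, hy, hxy⟩ := hy
        have huniq : ∀ y' ∈ S.erase x, B.Adj x y' → y' = y := fun y' hy' hxy' =>
          hleaf y' (mem_of_mem_erase hy') y (mem_of_mem_erase hy) hxy' hxy
        by_cases hxR : x ∈ R
        · have hyR : y ∉ R := (hR x y hxy).1 hxR
          refine ⟨P.filter (fun b => G.Adj (f y) b), hAd _ (hfA y hy hyR),
            fun _ => filter_subset _ _, fun h => absurd hxR h, ?_⟩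
          intro z hz y' hy' hxy'
          rw [huniq y' hy' hxy']
          exact (mem_filter.1 hz).2.symm
        · have hyR : y ∈ R := by
            by_contra hyR
            exact hxR ((hR x y hxy).2 hyR)
          refine ⟨A.filter (fun a => G.Adj a (f y)), hPd _ (hfP y hy hyR),
            fun h => absurd h hxR, fun _ => filter_subset _ _, ?_⟩
          intro z hz y' hy' hxy'
          rw [huniq y' hy' hxy']
          exact (mem_filter.1 hz).2
      · push Not at hy
        by_cases hxR : x ∈ R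
        · obtain ⟨a, ha⟩ := hA
          exact ⟨P, (hAd a ha).trans_le (card_filter_le _ _), fun _ => subset_rfl,
            fun h => absurd hxR h, fun z _ y hyS hxy => absurd hxy (hy y hyS)⟩
        · obtain ⟨b, hb⟩ := hP
          exact ⟨A, (hPd b hb).trans_le (card_filter_le _ _), fun h => absurd h hxR,
            fun _ => subset_rfl, fun z _ y hyS hxy => absurd hxy (hy y hyS)⟩
    obtain ⟨z, hzC, hz⟩ : ∃ z ∈ C, z ∉ (S.erase x).image f := by
      by_contra hcon
      push Not at hcon
      have h1 := card_le_card (show C ⊆ (S.erase x).image f from hcon)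
      have h2 : #((S.erase x).image f) ≤ #(S.erase x) := card_image_le
      omega
    have hz' : ∀ y ∈ S, y ≠ x → f y ≠ z := fun y hy hyx h =>
      hz (mem_image.2 ⟨y, mem_erase.2 ⟨hyx, hy⟩, h⟩)
    have hupx : Function.update f x z x = z := Function.update_self ..
    have hupy : ∀ y, y ≠ x → Function.update f x z y = f y := fun y hy =>
      Function.update_of_ne hy ..
    refine ⟨Function.update f x z, ?_, ?_, ?_, ?_⟩
    · intro y hy hyR
      by_cases hyx : y = x
      · subst hyx
        rw [hupx]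
        exact hCR hyR hzC
      · rw [hupy y hyx]
        exact hfP y (mem_erase.2 ⟨hyx, hy⟩) hyR
    · intro y hy hyR
      by_cases hyx : y = x
      · subst hyx
        rw [hupx]
        exact hCA hyR hzC
      · rw [hupy y hyx]
        exact hfA y (mem_erase.2 ⟨hyx, hy⟩) hyR
    · intro y hy y' hy' hyy'
      by_cases hyx : y = x <;> by_cases hyx' : y' = x
      · rw [hyx, hyx']
      · rw [hyx, hupx, hupy y' hyx'] at hyy'
        exact absurd hyy'.symm (hz' y' hy' hyx')
      · rw [hyx', hupx, hupy y hyx] at hyy'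
        exact absurd hyy' (hz' y hy hyx)
      · rw [hupy y hyx, hupy y' hyx'] at hyy'
        exact hfi y (mem_erase.2 ⟨hyx, hy⟩) y' (mem_erase.2 ⟨hyx', hy'⟩) hyy'
    · intro y hy y' hy' hyy'
      by_cases hyx : y = x
      · subst hyx
        have hyx' : y' ≠ y := hyy'.ne'
        rw [hupx, hupy y' hyx']
        exact hCG z hzC y' (mem_erase.2 ⟨hyx', hy'⟩) hyy'
      · by_cases hyx' : y' = x
        · subst hyx'
          rw [hupx, hupy y hyx]
          exact (hCG z hzC y (mem_erase.2 ⟨hyx, hy⟩) hyy'.symm).symm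
        · rw [hupy y hyx, hupy y' hyx']
          exact hfG y (mem_erase.2 ⟨hyx, hy⟩) y' (mem_erase.2 ⟨hyx', hy'⟩) hyy'

end Pool.Agent.Lib.H45Glue
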