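import Pool.Agent.Lib.H45Glue.Apex

/-!
# The asymmetric bound for graphs which become forests when `s` vertices of one class are deleted
-/

namespace Pool.Agent.Lib.H45Glue

open SimpleGraph Finset Pool.Agent.Lib.Helper15.Glue

variable {V : Type*} [Fintype V]

open Classical in
lemma exists_tuple (G : SimpleGraph V) (P : Finset V)
    (hP : ∀ a b, G.Adj a b → (a ∈ P ↔ b ∉ P)) (s K : ℕ) (hK : s ≤ K) :
    (G.edgeSet.ncard - K * Fintype.card V) ^ (s + 1) ≤ K * Fintype.card V ^ (2 * s + 1) ∨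
    ∃ T : Fin s ↪ V, K * Fintype.card V <
      ∑ y ∈ Pᶜ with (∀ i, G.Adj y (T i)), (G.degree y - K) := by
  by_cases h : ∃ T : Fin s ↪ V, K * Fintype.card V <
      ∑ y ∈ Pᶜ with (∀ i, G.Adj y (T i)), (G.degree y - K)
  · exact Or.inr h
  left
  push Not at h
  set n := Fintype.card V with hn
  have hP' : ∀ a b, G.Adj a b → (a ∈ Pᶜ ↔ b ∉ Pᶜ) := by
    intro a b hab
    have := hP a b hab
    simp only [mem_compl]
    tauto
  have h2 : G.edgeSet.ncard - K * n ≤ ∑ y ∈ Pᶜ, (G.degree y - K) := sub_le_sum_degree G Pᶜ hP' K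
  have h5 : ∀ y : V, (G.degree y - K) ^ (s + 1) ≤
      #(univ.filter (fun T : Fin s ↪ V => ∀ i, G.Adj y (T i))) * (G.degree y - K) := by
    intro y
    rw [pow_succ]
    exact Nat.mul_le_mul_right _ (pow_le_tuples G s K hK y)
  calc (G.edgeSet.ncard - K * n) ^ (s + 1)
      ≤ (∑ y ∈ Pᶜ, (G.degree y - K)) ^ (s + 1) := Nat.pow_le_pow_left h2 _
    _ ≤ #Pᶜ ^ s * ∑ y ∈ Pᶜ, (G.degree y - K) ^ (s + 1) :=
        pow_sum_le_card_mul_sum_pow (fun _ _ => Nat.zero_le _) s
    _ ≤ n ^ s * ∑ y ∈ Pᶜ, (G.degree y - K) ^ (s + 1) :=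
        Nat.mul_le_mul_right _ (Nat.pow_le_pow_left (card_le_univ _) _)
    _ ≤ n ^ s * ∑ y ∈ Pᶜ, #(univ.filter (fun T : Fin s ↪ V => ∀ i, G.Adj y (T i))) *
          (G.degree y - K) := Nat.mul_le_mul_left _ (sum_le_sum fun y _ => h5 y)
    _ = n ^ s * ∑ T : Fin s ↪ V, ∑ y ∈ Pᶜ with (∀ i, G.Adj y (T i)), (G.degree y - K) := by
        congr 1
        have h7 : ∀ y : V, #(univ.filter (fun T : Fin s ↪ V => ∀ i, G.Adj y (T i))) *
            (G.degree y - K) =
            ∑ T : Fin s ↪ V, if (∀ i, G.Adj y (T i)) then (G.degree y - K) else 0 := by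
          intro y
          rw [← sum_filter, sum_const, smul_eq_mul]
        rw [sum_congr rfl fun y _ => h7 y, sum_comm]
        refine sum_congr rfl fun T _ => ?_
        rw [sum_filter]
    _ ≤ n ^ s * ∑ T : Fin s ↪ V, K * n :=
        Nat.mul_le_mul_left _ (sum_le_sum fun T _ => h T)
    _ ≤ n ^ s * (n ^ s * (K * n)) := by
        refine Nat.mul_le_mul_left _ ?_
        rw [sum_const, smul_eq_mul, card_univ, Fintype.card_embedding_eq, Fintype.card_fin]
        exact Nat.mul_le_mul_right _ (Nat.descFactorial_le_pow _ _)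
    _ = K * n ^ (2 * s + 1) := by
        rw [show 2 * s + 1 = s + s + 1 by ring, pow_succ, pow_add]
        ring

/-- The asymmetric bound for graphs in which the deletion of `s` vertices of one class leaves a
forest. -/
theorem exists_oriented_apex {W : Type*} [Fintype W] (B : SimpleGraph W) (R Ω : Set W)
    (hΩR : Ω ⊆ R) (hR : ∀ x y, B.Adj x y → (x ∈ R ↔ y ∉ R)) (s : ℕ) (hΩ : Ω.ncard ≤ s)
    (hF : (B.induce Ωᶜ).IsAcyclic) (G : SimpleGraph V) (P : Set V)
    (hP : ∀ a b, G.Adj a b → (a ∈ P ↔ b ∉ P)) :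
    (G.edgeSet.ncard - (Fintype.card W + s) * Fintype.card V) ^ (s + 1) ≤
      (Fintype.card W + s) * Fintype.card V ^ (2 * s + 1) ∨
    ∃ c : Copy B G, (∀ x ∈ R, c x ∈ P) ∧ ∀ y, y ∉ R → c y ∉ P := by
  classical
  have hP' : ∀ a b, G.Adj a b → (a ∈ P.toFinset ↔ b ∉ P.toFinset) := by simpa using hP
  rcases exists_tuple G P.toFinset hP' s (Fintype.card W + s) (by omega) with h | ⟨T, hT⟩
  · exact Or.inl h
  right
  set A : Finset V := (P.toFinsetᶜ).filter (fun y => ∀ i, G.Adj y (T i)) with hA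
  set P₁ : Finset V := univ.filter (fun x => x ∈ P ∧ x ∉ Set.range T) with hP₁
  have hAP : ∀ y ∈ A, y ∉ P := fun y hy => by simpa using (mem_filter.1 hy).1
  have hAT : ∀ y ∈ A, ∀ i, G.Adj y (T i) := fun y hy => (mem_filter.1 hy).2
  have hP₁P : ∀ x ∈ P₁, x ∈ P := fun x hx => (mem_filter.1 hx).2.1
  have hP₁T : ∀ x ∈ P₁, x ∉ Set.range T := fun x hx => (mem_filter.1 hx).2.2
  have hdeg : ∀ y ∈ A, G.degree y - (Fintype.card W + s) ≤ #(P₁.filter (fun b => G.Adj y b)) := by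
    intro y hy
    have h1 : G.neighborFinset y ⊆ P₁.filter (fun b => G.Adj y b) ∪ univ.image T := by
      intro b hb
      rw [mem_neighborFinset] at hb
      by_cases hbT : b ∈ Set.range T
      · obtain ⟨i, rfl⟩ := hbT
        exact mem_union_right _ (mem_image_of_mem _ (mem_univ i))
      · refine mem_union_left _ (mem_filter.2 ⟨mem_filter.2 ⟨mem_univ _, ?_, hbT⟩, hb⟩)
        by_contra hbP
        exact hAP y hy ((hP y b hb).2 hbP)
    have h2 := (card_le_card h1).trans (card_union_le _ _)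
    have h3 : #(univ.image T) ≤ s := by
      refine card_image_le.trans ?_
      rw [card_univ, Fintype.card_fin]
    rw [card_neighborFinset_eq_degree] at h2
    omega
  have hcross : Fintype.card W * (#A + #P₁) < crossN G A P₁ := by
    have h1 : crossN G A P₁ = ∑ y ∈ A, #(P₁.filter (fun b => G.Adj y b)) := by
      rw [crossN, card_filter, sum_product]
      refine sum_congr rfl fun y _ => ?_
      rw [card_filter]
    have h2 : #A + #P₁ ≤ Fintype.card V := by
      rw [← card_union_of_disjoint]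
      · exact card_le_univ _
      · rw [Finset.disjoint_left]
        intro y hy hy'
        exact hAP y hy (hP₁P y hy')
    calc Fintype.card W * (#A + #P₁) ≤ (Fintype.card W + s) * Fintype.card V :=
          Nat.mul_le_mul (by omega) h2
      _ < ∑ y ∈ A, (G.degree y - (Fintype.card W + s)) := hT
      _ ≤ ∑ y ∈ A, #(P₁.filter (fun b => G.Adj y b)) := sum_le_sum hdeg
      _ = _ := h1.symm
  obtain ⟨A₀, hA₀, P₀, hP₀, hA₀n, hP₀n, hAd, hPd⟩ := exists_core G _ _ A P₁ rfl hcross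
  obtain ⟨f, hfP, hfA, hfi, hfG⟩ := forest_embed hR hF G (Fintype.card W) A₀ P₀ hA₀n hP₀n hAd hPd
    _ (univ.filter (fun x => x ∉ Ω)) rfl (card_le_univ _) (by
      intro x hx
      simpa using hx)
  have hmem : ∀ x, x ∉ Ω → x ∈ univ.filter (fun x => x ∉ Ω) := fun x hx => by simpa using hx
  -- the deleted vertices
  obtain ⟨j⟩ : Nonempty (Ω ↪ Fin s) := by
    refine Function.Embedding.nonempty_of_card_le ?_
    rw [Fintype.card_fin, ← Nat.card_eq_fintype_card]
    exact hΩ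
  have hTP : ∀ i, T i ∈ P := by
    intro i
    obtain ⟨a, ha⟩ := hA₀n
    by_contra hcon
    exact hAP a (hA₀ ha) ((hP a (T i) (hAT a (hA₀ ha) i)).2 hcon)
  set c : W → V := fun x => if h : x ∈ Ω then T (j ⟨x, h⟩) else f x with hc
  have hc1 : ∀ x (h : x ∈ Ω), c x = T (j ⟨x, h⟩) := fun x h => by simp only [hc, dif_pos h]
  have hc2 : ∀ x, x ∉ Ω → c x = f x := fun x h => by simp only [hc, dif_neg h]
  have hcR : ∀ x ∈ R, c x ∈ P := by
    intro x hx
    by_cases hxΩ : x ∈ Ω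
    · rw [hc1 x hxΩ]
      exact hTP _
    · rw [hc2 x hxΩ]
      exact hP₁P _ (hP₀ (hfP x (hmem x hxΩ) hx))
  have hcA : ∀ x, x ∉ R → c x ∈ A := by
    intro x hx
    have hxΩ : x ∉ Ω := fun h => hx (hΩR h)
    rw [hc2 x hxΩ]
    exact hA₀ (hfA x (hmem x hxΩ) hx)
  have hadj : ∀ x y, x ∈ R → y ∉ R → B.Adj x y → G.Adj (c x) (c y) := by
    intro x y hx hy hxy
    have hyΩ : y ∉ Ω := fun h => hy (hΩR h)
    by_cases hxΩ : x ∈ Ω
    · rw [hc1 x hxΩ]
      exact (hAT _ (hcA y hy) _).symm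
    · rw [hc2 x hxΩ, hc2 y hyΩ]
      exact hfG x (hmem x hxΩ) y (hmem y hyΩ) hxy
  have hTf : ∀ x (hx : x ∈ Ω) y, y ∉ Ω → c x ≠ c y := by
    intro x hx y hy hxy
    by_cases hyR : y ∈ R
    · rw [hc1 x hx, hc2 y hy] at hxy
      exact hP₁T _ (hP₀ (hfP y (hmem y hy) hyR)) ⟨_, hxy⟩
    · exact hAP _ (hcA y hyR) (hxy ▸ hcR x (hΩR hx))
  refine ⟨⟨⟨c, ?_⟩, ?_⟩, hcR, fun y hy => hAP _ (hcA y hy)⟩
  · intro x y hxy
    by_cases hx : x ∈ R
    · exact hadj x y hx ((hR x y hxy).1 hx) hxy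
    · have hy : y ∈ R := by
        by_contra hy
        exact hx ((hR x y hxy).2 hy)
      exact (hadj y x hy hx hxy.symm).symm
  · intro x y hxy
    have hxy : c x = c y := hxy
    by_cases hx : x ∈ Ω <;> by_cases hy : y ∈ Ω
    · rw [hc1 x hx, hc1 y hy] at hxy
      exact congrArg Subtype.val (j.injective (T.injective hxy))
    · exact absurd hxy (hTf x hx y hy)
    · exact absurd hxy.symm (hTf y hy x hx)
    · rw [hc2 x hx, hc2 y hy] at hxy
      exact hfi x (hmem x hx) y (hmem y hy) hxy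

end Pool.Agent.Lib.H45Glue
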