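import Mathlib

/-!
# The algebraic core of Brown's construction
-/

namespace Pool.Agent.Lib.H45Glue

variable {F : Type*} [Field F]

/-- The quadric `Q = g` contains no line. -/
lemma isSquare_of_line (h2 : (2 : F) ≠ 0) {g w1 w2 w3 u1 u2 u3 : F}
    (hu : ¬ (u1 = 0 ∧ u2 = 0 ∧ u3 = 0)) (h₁ : w1 * w2 + w3 ^ 2 = g)
    (h₂ : w1 * u2 + w2 * u1 + 2 * w3 * u3 = 0) (h₃ : u1 * u2 + u3 ^ 2 = 0) : IsSquare g := by
  by_cases h : u3 = 0
  · subst h
    have h4 : u1 * u2 = 0 := by linear_combination h₃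
    rcases mul_eq_zero.1 h4 with h5 | h5
    · subst h5
      have hu2 : u2 ≠ 0 := fun h => hu ⟨rfl, h, rfl⟩
      have h6 : w1 * u2 = 0 := by linear_combination h₂
      have h7 : w1 = 0 := (mul_eq_zero.1 h6).resolve_right hu2
      exact ⟨w3, by rw [← h₁, h7]; ring⟩
    · subst h5
      have hu1 : u1 ≠ 0 := fun h => hu ⟨h, rfl, rfl⟩
      have h6 : w2 * u1 = 0 := by linear_combination h₂
      have h7 : w2 = 0 := (mul_eq_zero.1 h6).resolve_right hu1
      exact ⟨w3, by rw [← h₁, h7]; ring⟩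
  · have h4 : (u1 * w2 - u2 * w1) ^ 2 = 4 * g * u3 ^ 2 := by
      linear_combination (u1 * w2 + u2 * w1 - 2 * w3 * u3) * h₂ - 4 * w1 * w2 * h₃ +
        4 * u3 ^ 2 * h₁
    refine ⟨(u1 * w2 - u2 * w1) / (2 * u3), ?_⟩
    have h5 : (2 * u3) ≠ 0 := mul_ne_zero h2 h
    field_simp
    linear_combination -h4

/-- Three collinear centres. -/
lemma isSquare_of_collinear (h2 : (2 : F) ≠ 0) {g w1 w2 w3 u1 u2 u3 t : F}
    (hu : ¬ (u1 = 0 ∧ u2 = 0 ∧ u3 = 0)) (ht0 : t ≠ 0) (ht1 : t ≠ 1)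
    (h₁ : w1 * w2 + w3 ^ 2 = g) (h₂ : (w1 + u1) * (w2 + u2) + (w3 + u3) ^ 2 = g)
    (h₃ : (w1 + t * u1) * (w2 + t * u2) + (w3 + t * u3) ^ 2 = g) : IsSquare g := by
  have h4 : (w1 * u2 + w2 * u1 + 2 * w3 * u3) + (u1 * u2 + u3 ^ 2) = 0 := by
    linear_combination h₂ - h₁
  have h5 : t * ((w1 * u2 + w2 * u1 + 2 * w3 * u3) + t * (u1 * u2 + u3 ^ 2)) = 0 := by
    linear_combination h₃ - h₁
  have h6 := (mul_eq_zero.1 h5).resolve_left ht0
  have h7 : (t - 1) * (u1 * u2 + u3 ^ 2) = 0 := by linear_combination h6 - h4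
  have h8 := (mul_eq_zero.1 h7).resolve_left (sub_ne_zero.2 ht1)
  exact isSquare_of_line h2 hu h₁ (by linear_combination h4 - h8) h8

/-- Parallel vectors. -/
lemma exists_par {a1 a2 a3 b1 b2 b3 : F} (ha : ¬ (a1 = 0 ∧ a2 = 0 ∧ a3 = 0))
    (h₁ : a2 * b3 - a3 * b2 = 0) (h₂ : a3 * b1 - a1 * b3 = 0) (h₃ : a1 * b2 - a2 * b1 = 0) :
    ∃ t, b1 = t * a1 ∧ b2 = t * a2 ∧ b3 = t * a3 := by
  by_cases h1 : a1 = 0
  · by_cases h2 : a2 = 0
    · have h3 : a3 ≠ 0 := fun h => ha ⟨h1, h2, h⟩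
      subst h1 h2
      refine ⟨b3 / a3, ?_, ?_, ?_⟩
      · have : a3 * b1 = 0 := by linear_combination h₂
        rw [(mul_eq_zero.1 this).resolve_left h3, mul_zero]
      · have : a3 * b2 = 0 := by linear_combination -h₁
        rw [(mul_eq_zero.1 this).resolve_left h3, mul_zero]
      · field_simp
    · refine ⟨b2 / a2, ?_, ?_, ?_⟩
      · field_simp
        linear_combination -h₃
      · field_simp
      · field_simp
        linear_combination h₁
  · refine ⟨b1 / a1, ?_, ?_, ?_⟩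
    · field_simp
    · field_simp
      linear_combination h₃
    · field_simp
      linear_combination -h₂

/-- Two pairs of orthogonal vectors in dimension three: one of the pairs is parallel. -/
lemma par_or_par {p1 p2 p3 q1 q2 q3 d1 d2 d3 e1 e2 e3 : F}
    (hp : ¬ (p1 = 0 ∧ p2 = 0 ∧ p3 = 0)) (hd : ¬ (d1 = 0 ∧ d2 = 0 ∧ d3 = 0))
    (h₁ : d1 * p1 + d2 * p2 + d3 * p3 = 0) (h₂ : d1 * q1 + d2 * q2 + d3 * q3 = 0)
    (h₃ : e1 * p1 + e2 * p2 + e3 * p3 = 0) (h₄ : e1 * q1 + e2 * q2 + e3 * q3 = 0) :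
    (∃ t, q1 = t * p1 ∧ q2 = t * p2 ∧ q3 = t * p3) ∨
      ∃ t, e1 = t * d1 ∧ e2 = t * d2 ∧ e3 = t * d3 := by
  by_cases h : (p2 * q3 - p3 * q2 = 0 ∧ p3 * q1 - p1 * q3 = 0 ∧ p1 * q2 - p2 * q1 = 0)
  · exact Or.inl (exists_par hp h.1 h.2.1 h.2.2)
  right
  obtain ⟨s, hs1, hs2, hs3⟩ := exists_par (b1 := d1) (b2 := d2) (b3 := d3) h
    (by linear_combination q1 * h₁ - p1 * h₂) (by linear_combination q2 * h₁ - p2 * h₂)
    (by linear_combination q3 * h₁ - p3 * h₂)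
  obtain ⟨r, hr1, hr2, hr3⟩ := exists_par (b1 := e1) (b2 := e2) (b3 := e3) h
    (by linear_combination q1 * h₃ - p1 * h₄) (by linear_combination q2 * h₃ - p2 * h₄)
    (by linear_combination q3 * h₃ - p3 * h₄)
  have hs : s ≠ 0 := by
    rintro rfl
    exact hd ⟨by rw [hs1, zero_mul], by rw [hs2, zero_mul], by rw [hs3, zero_mul]⟩
  refine ⟨r / s, ?_, ?_, ?_⟩
  · rw [hr1, hs1]; field_simp
  · rw [hr2, hs2]; field_simp
  · rw [hr3, hs3]; field_simp

/-- No three points are all at `Q`-distance `g` from three further points, if `g` is not a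
square. -/
theorem brown_core (h2 : (2 : F) ≠ 0) (g : F) (hg : ¬ IsSquare g)
    (x y : Fin 3 → F × F × F) (hx : Function.Injective x) (hy : Function.Injective y)
    (h : ∀ i j, ((x i).1 - (y j).1) * ((x i).2.1 - (y j).2.1) +
      ((x i).2.2 - (y j).2.2) ^ 2 = g) : False := by
  have hne : ∀ (z : Fin 3 → F × F × F), Function.Injective z → ∀ i j, i ≠ j →
      ¬ ((z i).1 - (z j).1 = 0 ∧ (z i).2.1 - (z j).2.1 = 0 ∧ (z i).2.2 - (z j).2.2 = 0) := by
    intro z hz i j hij ⟨h3, h4, h5⟩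
    refine hij (hz ?_)
    exact Prod.ext (sub_eq_zero.1 h3) (Prod.ext (sub_eq_zero.1 h4) (sub_eq_zero.1 h5))
  -- three collinear points on one side
  have hcol : ∀ (z z' : Fin 3 → F × F × F), Function.Injective z →
      (∀ i, ((z i).1 - (z' 0).1) * ((z i).2.1 - (z' 0).2.1) +
        ((z i).2.2 - (z' 0).2.2) ^ 2 = g) →
      (∃ t, (z 2).1 - (z 0).1 = t * ((z 1).1 - (z 0).1) ∧
        (z 2).2.1 - (z 0).2.1 = t * ((z 1).2.1 - (z 0).2.1) ∧
        (z 2).2.2 - (z 0).2.2 = t * ((z 1).2.2 - (z 0).2.2)) → False := by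
    rintro z z' hz hzz ⟨t, h3, h4, h5⟩
    have ht0 : t ≠ 0 := by
      rintro rfl
      exact hne z hz 2 0 (by decide) ⟨by rw [h3, zero_mul], by rw [h4, zero_mul],
        by rw [h5, zero_mul]⟩
    have ht1 : t ≠ 1 := by
      rintro rfl
      exact hne z hz 2 1 (by decide) ⟨by linear_combination h3, by linear_combination h4,
        by linear_combination h5⟩
    refine hg (isSquare_of_collinear h2 (w1 := (z 0).1 - (z' 0).1) (w2 := (z 0).2.1 - (z' 0).2.1)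
      (w3 := (z 0).2.2 - (z' 0).2.2) (hne z hz 1 0 (by decide)) ht0 ht1 (hzz 0) ?_ ?_)
    · have := hzz 1
      rw [← this]
      ring
    · rw [← h3, ← h4, ← h5]
      have := hzz 2
      rw [← this]
      ring
  -- the differences are orthogonal for the polar form
  have hb : ∀ i j k l, ((y k).1 - (y l).1) * ((x i).2.1 - (x j).2.1) +
      ((y k).2.1 - (y l).2.1) * ((x i).1 - (x j).1) +
      ((y k).2.2 - (y l).2.2) * (2 * ((x i).2.2 - (x j).2.2)) = 0 := by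
    intro i j k l
    linear_combination -(h i k) + h j k + h i l - h j l
  have hp : ¬ ((x 1).2.1 - (x 0).2.1 = 0 ∧ (x 1).1 - (x 0).1 = 0 ∧
      2 * ((x 1).2.2 - (x 0).2.2) = 0) := by
    rintro ⟨h3, h4, h5⟩
    exact hne x hx 1 0 (by decide) ⟨h4, h3, (mul_eq_zero.1 h5).resolve_left h2⟩
  rcases par_or_par hp (hne y hy 1 0 (by decide)) (hb 1 0 1 0) (hb 2 0 1 0) (hb 1 0 2 0)
    (hb 2 0 2 0) with ⟨t, h3, h4, h5⟩ | ht
  · refine hcol x y hx (fun i => h i 0) ⟨t, h4, h3, ?_⟩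
    refine mul_left_cancel₀ h2 ?_
    rw [h5]
    ring
  · refine hcol y x hy (fun i => ?_) ht
    have := h 0 i
    rw [← this]
    ring

end Pool.Agent.Lib.H45Glue
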