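import Pool.Agent.Lib.H45Glue.Hom

/-!
# The asymmetric bound for graphs which become forests when `s` vertices of each class are deleted
-/

namespace Pool.Agent.Lib.H45Glue

open SimpleGraph Finset Pool.Agent.Lib.Helper15.Glue

variable {V : Type*} [Fintype V]

lemma sum_nbsP_le (G : SimpleGraph V) (P : Finset V) (r : ℕ) :
    ∑ t ∈ cpl G P r r, #(nbsP G P t.2) ≤ #(cpl G P (r + 1) r) := by
  classical
  rw [← card_sigma]
  refine card_le_card_of_injOn
    (fun p => ((Fin.cons p.2 p.1.1 : Fin (r + 1) → V), p.1.2)) ?_ ?_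
  · rintro ⟨⟨X, Y⟩, x⟩ hp
    simp only [coe_sigma, Set.mem_sigma_iff, mem_coe, mem_cpl, nbsP, mem_filter] at hp
    obtain ⟨⟨h1, h2⟩, h3, h4⟩ := hp
    rw [mem_coe, mem_cpl]
    refine ⟨fun i => ?_, fun i j => ?_⟩
    · refine Fin.cases ?_ (fun i => ?_) i
      · simpa using h3
      · simpa using h1 i
    · refine Fin.cases ?_ (fun i => ?_) i
      · simpa using h4 j
      · simpa using h2 i j
  · rintro ⟨⟨X, Y⟩, x⟩ _ ⟨⟨X', Y'⟩, x'⟩ _ h
    simp only [Prod.mk.injEq] at h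
    obtain ⟨h1, h2⟩ := h
    obtain ⟨h3, h4⟩ := Fin.cons_injective2 h1
    subst h2 h3 h4
    rfl

lemma sum_nbs_le (G : SimpleGraph V) (P : Finset V) (r : ℕ) :
    ∑ t ∈ cpl G P r r, #(nbs G t.1) ≤ #(cpl G P r (r + 1)) := by
  classical
  rw [← card_sigma]
  refine card_le_card_of_injOn
    (fun p => (p.1.1, (Fin.cons p.2 p.1.2 : Fin (r + 1) → V))) ?_ ?_
  · rintro ⟨⟨X, Y⟩, y⟩ hp
    simp only [coe_sigma, Set.mem_sigma_iff, mem_coe, mem_cpl, nbs, mem_filter, mem_univ,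
      true_and] at hp
    obtain ⟨⟨h1, h2⟩, h4⟩ := hp
    rw [mem_coe, mem_cpl]
    refine ⟨h1, fun i j => ?_⟩
    refine Fin.cases ?_ (fun j => ?_) j
    · simpa using h4 i
    · simpa using h2 i j
  · rintro ⟨⟨X, Y⟩, x⟩ _ ⟨⟨X', Y'⟩, x'⟩ _ h
    simp only [Prod.mk.injEq] at h
    obtain ⟨h1, h2⟩ := h
    obtain ⟨h3, h4⟩ := Fin.cons_injective2 h2
    subst h1 h3 h4
    rfl

omit [Fintype V] in
/-- A function is determined by its restriction when two values agree. -/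
lemma eq_of_succAbove {r : ℕ} {i j : Fin (r + 1)} (hij : i ≠ j) {X X' : Fin (r + 1) → V}
    (hX : X i = X j) (hX' : X' i = X' j)
    (h : (fun k => X (j.succAbove k)) = fun k => X' (j.succAbove k)) : X = X' := by
  obtain ⟨k, hk⟩ := Fin.exists_succAbove_eq hij
  funext l
  by_cases hl : l = j
  · subst hl
    rw [← hX, ← hX', ← hk]
    exact congrFun h k
  · obtain ⟨m, hm⟩ := Fin.exists_succAbove_eq hl
    rw [← hm]
    exact congrFun h m

open Classical in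
lemma card_noninj_left (G : SimpleGraph V) (P : Finset V) (r : ℕ) :
    #((cpl G P (r + 1) (r + 1)).filter (fun t => ¬ Function.Injective t.1)) ≤
      (r + 1) ^ 2 * #(cpl G P r (r + 1)) := by
  have h1 : (cpl G P (r + 1) (r + 1)).filter (fun t => ¬ Function.Injective t.1) ⊆
      (univ : Finset (Fin (r + 1) × Fin (r + 1))).biUnion (fun q =>
        (cpl G P (r + 1) (r + 1)).filter (fun t => q.1 ≠ q.2 ∧ t.1 q.1 = t.1 q.2)) := by
    intro t ht
    obtain ⟨ht1, ht2⟩ := mem_filter.1 ht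
    unfold Function.Injective at ht2
    push Not at ht2
    obtain ⟨i, j, h2, h3⟩ := ht2
    exact mem_biUnion.2 ⟨(i, j), mem_univ _, mem_filter.2 ⟨ht1, h3, h2⟩⟩
  refine (card_le_card h1).trans (card_biUnion_le.trans ?_)
  have h2 : ∀ q ∈ (univ : Finset (Fin (r + 1) × Fin (r + 1))),
      #((cpl G P (r + 1) (r + 1)).filter (fun t => q.1 ≠ q.2 ∧ t.1 q.1 = t.1 q.2)) ≤
        #(cpl G P r (r + 1)) := by
    rintro ⟨i, j⟩ -
    refine card_le_card_of_injOn (fun t => (fun k => t.1 (j.succAbove k), t.2)) ?_ ?_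
    · intro t ht
      obtain ⟨ht1, -⟩ := mem_filter.1 (mem_coe.1 ht)
      rw [mem_cpl] at ht1
      rw [mem_coe, mem_cpl]
      exact ⟨fun k => ht1.1 _, fun k l => ht1.2 _ _⟩
    · intro t ht t' ht' htt'
      obtain ⟨-, hij, h3⟩ := mem_filter.1 (mem_coe.1 ht)
      obtain ⟨-, -, h4⟩ := mem_filter.1 (mem_coe.1 ht')
      have h5 := congrArg Prod.fst htt'
      have h6 := congrArg Prod.snd htt'
      exact Prod.ext (eq_of_succAbove hij h3 h4 h5) h6
  refine (sum_le_card_nsmul _ _ _ h2).trans (le_of_eq ?_)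
  simp only [card_univ, Fintype.card_prod, Fintype.card_fin, smul_eq_mul]
  ring

open Classical in
lemma card_noninj_right (G : SimpleGraph V) (P : Finset V) (r : ℕ) :
    #((cpl G P (r + 1) (r + 1)).filter (fun t => ¬ Function.Injective t.2)) ≤
      (r + 1) ^ 2 * #(cpl G P (r + 1) r) := by
  have h1 : (cpl G P (r + 1) (r + 1)).filter (fun t => ¬ Function.Injective t.2) ⊆
      (univ : Finset (Fin (r + 1) × Fin (r + 1))).biUnion (fun q =>
        (cpl G P (r + 1) (r + 1)).filter (fun t => q.1 ≠ q.2 ∧ t.2 q.1 = t.2 q.2)) := by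
    intro t ht
    obtain ⟨ht1, ht2⟩ := mem_filter.1 ht
    unfold Function.Injective at ht2
    push Not at ht2
    obtain ⟨i, j, h2, h3⟩ := ht2
    exact mem_biUnion.2 ⟨(i, j), mem_univ _, mem_filter.2 ⟨ht1, h3, h2⟩⟩
  refine (card_le_card h1).trans (card_biUnion_le.trans ?_)
  have h2 : ∀ q ∈ (univ : Finset (Fin (r + 1) × Fin (r + 1))),
      #((cpl G P (r + 1) (r + 1)).filter (fun t => q.1 ≠ q.2 ∧ t.2 q.1 = t.2 q.2)) ≤
        #(cpl G P (r + 1) r) := by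
    rintro ⟨i, j⟩ -
    refine card_le_card_of_injOn (fun t => (t.1, fun k => t.2 (j.succAbove k))) ?_ ?_
    · intro t ht
      obtain ⟨ht1, -⟩ := mem_filter.1 (mem_coe.1 ht)
      rw [mem_cpl] at ht1
      rw [mem_coe, mem_cpl]
      exact ⟨ht1.1, fun k l => ht1.2 _ _⟩
    · intro t ht t' ht' htt'
      obtain ⟨-, hij, h3⟩ := mem_filter.1 (mem_coe.1 ht)
      obtain ⟨-, -, h4⟩ := mem_filter.1 (mem_coe.1 ht')
      have h5 := congrArg Prod.fst htt'
      have h6 := congrArg Prod.snd htt'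
      exact Prod.ext h5 (eq_of_succAbove hij h3 h4 h6)
  refine (sum_le_card_nsmul _ _ _ h2).trans (le_of_eq ?_)
  simp only [card_univ, Fintype.card_prod, Fintype.card_fin, smul_eq_mul]
  ring

open Classical in
/-- Few edges, or a complete pair of injective tuples with many edges between the remaining
common neighbourhoods. -/
lemma exists_pair (G : SimpleGraph V) (P : Finset V)
    (hP : ∀ a b, G.Adj a b → (a ∈ P ↔ b ∉ P)) (r K : ℕ) :
    G.edgeSet.ncard ^ (r + 1) ≤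
      4 * (K + (r + 1) ^ 2) * Fintype.card V ^ (2 * r + 1) ∨
    ∃ t ∈ cpl G P r r, Function.Injective t.1 ∧ Function.Injective t.2 ∧
      K * (#(nbsP G P t.2 \ univ.image t.1) + #(nbs G t.1 \ univ.image t.2)) <
        crossN G (nbsP G P t.2 \ univ.image t.1) (nbs G t.1 \ univ.image t.2) := by
  by_cases h : ∃ t ∈ cpl G P r r, Function.Injective t.1 ∧ Function.Injective t.2 ∧
      K * (#(nbsP G P t.2 \ univ.image t.1) + #(nbs G t.1 \ univ.image t.2)) <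
        crossN G (nbsP G P t.2 \ univ.image t.1) (nbs G t.1 \ univ.image t.2)
  · exact Or.inr h
  left
  push Not at h
  set n := Fintype.card V with hn
  set T := (cpl G P r r).filter (fun t => Function.Injective t.1 ∧ Function.Injective t.2)
    with hT
  -- the injective pairs
  have h1 : #((cpl G P (r + 1) (r + 1)).filter
      (fun t => Function.Injective t.1 ∧ Function.Injective t.2)) ≤
      ∑ t ∈ T, crossN G (nbsP G P t.2 \ univ.image t.1) (nbs G t.1 \ univ.image t.2) := by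
    unfold crossN
    rw [← card_sigma]
    refine card_le_card_of_injOn
      (fun t => ⟨(Fin.tail t.1, Fin.tail t.2), (t.1 0, t.2 0)⟩) ?_ ?_
    · intro t ht
      obtain ⟨ht1, ht2, ht3⟩ := mem_filter.1 (mem_coe.1 ht)
      rw [mem_cpl] at ht1
      have hX : ∀ i, Fin.tail t.1 i = t.1 i.succ := fun _ => rfl
      have hY : ∀ i, Fin.tail t.2 i = t.2 i.succ := fun _ => rfl
      simp only [coe_sigma, Set.mem_sigma_iff, mem_coe, hT, mem_filter, mem_cpl, mem_product,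
        mem_sdiff, mem_image, mem_univ, true_and, nbsP, nbs, hX, hY, not_exists]
      refine ⟨⟨⟨fun i => ht1.1 _, fun i j => ht1.2 _ _⟩, ?_, ?_⟩, ⟨⟨⟨ht1.1 _, fun j => ht1.2 _ _⟩,
        ?_⟩, ⟨fun i => ht1.2 _ _, ?_⟩⟩, ht1.2 _ _⟩
      · exact ht2.comp (Fin.succ_injective r)
      · exact ht3.comp (Fin.succ_injective r)
      · intro i hi
        exact (Fin.succ_ne_zero i) (ht2 hi)
      · intro i hi
        exact (Fin.succ_ne_zero i) (ht3 hi)
    · intro t _ t' _ htt'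
      simp only [Sigma.mk.injEq, Prod.mk.injEq, heq_eq_eq] at htt'
      obtain ⟨⟨h3, h4⟩, h5, h6⟩ := htt'
      refine Prod.ext ?_ ?_
      · rw [← Fin.cons_self_tail t.1, ← Fin.cons_self_tail t'.1, h3, h5]
      · rw [← Fin.cons_self_tail t.2, ← Fin.cons_self_tail t'.2, h4, h6]
  have h2 : ∑ t ∈ T, crossN G (nbsP G P t.2 \ univ.image t.1) (nbs G t.1 \ univ.image t.2) ≤
      K * (#(cpl G P (r + 1) r) + #(cpl G P r (r + 1))) := by
    calc ∑ t ∈ T, crossN G (nbsP G P t.2 \ univ.image t.1) (nbs G t.1 \ univ.image t.2)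
        ≤ ∑ t ∈ T, K * (#(nbsP G P t.2) + #(nbs G t.1)) := by
          refine sum_le_sum fun t ht => ?_
          obtain ⟨ht1, ht2, ht3⟩ := mem_filter.1 ht
          refine (h t ht1 ht2 ht3).trans (Nat.mul_le_mul_left _ ?_)
          exact Nat.add_le_add (card_le_card sdiff_subset) (card_le_card sdiff_subset)
      _ ≤ ∑ t ∈ cpl G P r r, K * (#(nbsP G P t.2) + #(nbs G t.1)) :=
          sum_le_sum_of_subset (filter_subset _ _)
      _ = K * (∑ t ∈ cpl G P r r, #(nbsP G P t.2) + ∑ t ∈ cpl G P r r, #(nbs G t.1)) := by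
          rw [← mul_sum, sum_add_distrib]
      _ ≤ _ := Nat.mul_le_mul_left _ (Nat.add_le_add (sum_nbsP_le G P r) (sum_nbs_le G P r))
  have h3 := card_noninj_left G P r
  have h4 := card_noninj_right G P r
  have h5 : #(cpl G P (r + 1) (r + 1)) ≤
      #((cpl G P (r + 1) (r + 1)).filter
        (fun t => Function.Injective t.1 ∧ Function.Injective t.2)) +
      #((cpl G P (r + 1) (r + 1)).filter (fun t => ¬ Function.Injective t.1)) +
      #((cpl G P (r + 1) (r + 1)).filter (fun t => ¬ Function.Injective t.2)) := by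
    refine le_trans (card_le_card (t := _ ∪ _ ∪ _) ?_) ((card_union_le _ _).trans
      (Nat.add_le_add_right (card_union_le _ _) _))
    intro t ht
    simp only [mem_union, mem_filter, ht, true_and]
    tauto
  have h6 := young_left G P r (4 * (K + (r + 1) ^ 2))
  have h7 := young_right G P r (4 * (K + (r + 1) ^ 2))
  have h8 := sidorenko G P hP r
  rw [← hn] at h6 h7 h8
  generalize #(cpl G P (r + 1) (r + 1)) = h at *
  generalize #(cpl G P (r + 1) r) = a at *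
  generalize #(cpl G P r (r + 1)) = b at *
  generalize hM : K + (r + 1) ^ 2 = M at *
  have h9 : h ≤ M * a + M * b := by
    rw [← hM]
    nlinarith
  have h10 : h ≤ (4 * M) ^ (r + 1) * n ^ (r + 1) := by
    have h11 : 4 * (M * a + M * b) = 4 * M * a + 4 * M * b := by ring
    omega
  have h11 : (G.edgeSet.ncard ^ (r + 1)) ^ (r + 1) ≤
      (4 * M * n ^ (2 * r + 1)) ^ (r + 1) := by
    refine h8.trans ((Nat.mul_le_mul_left _ h10).trans (le_of_eq ?_))
    rw [mul_pow (4 * M), pow_succ n (2 * r), mul_pow (n ^ (2 * r))]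
    ring
  exact (Nat.pow_le_pow_iff_left (Nat.succ_ne_zero r)).1 h11

/-- The asymmetric bound for graphs in which the deletion of at most `r` vertices of each class
leaves a forest. -/
theorem exists_oriented_forest {W : Type*} [Fintype W] (B : SimpleGraph W) (R Ω : Set W)
    (hR : ∀ x y, B.Adj x y → (x ∈ R ↔ y ∉ R)) (r : ℕ) (hΩ₁ : (Ω ∩ R).ncard ≤ r)
    (hΩ₂ : (Ω \ R).ncard ≤ r) (hF : (B.induce Ωᶜ).IsAcyclic) (G : SimpleGraph V) (P : Set V)
    (hP : ∀ a b, G.Adj a b → (a ∈ P ↔ b ∉ P)) :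
    G.edgeSet.ncard ^ (r + 1) ≤
      4 * (Fintype.card W + (r + 1) ^ 2) * Fintype.card V ^ (2 * r + 1) ∨
    ∃ c : Copy B G, (∀ x ∈ R, c x ∈ P) ∧ ∀ y, y ∉ R → c y ∉ P := by
  classical
  have hP' : ∀ a b, G.Adj a b → (a ∈ P.toFinset ↔ b ∉ P.toFinset) := by simpa using hP
  rcases exists_pair G P.toFinset hP' r (Fintype.card W) with h | ⟨⟨X, Y⟩, ht, hX, hY, hcross⟩
  · exact Or.inl h
  right
  rw [mem_cpl] at ht
  obtain ⟨hXP, hXY⟩ := ht
  simp only at hXP hXY hX hY hcross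
  obtain ⟨P₀, hP₀, A₀, hA₀, hP₀n, hA₀n, hPd, hAd⟩ := exists_core G _ _ _ _ rfl hcross
  have hsym : ∀ (a : V) (D : Finset V), D.filter (fun b => G.Adj a b) =
      D.filter (fun b => G.Adj b a) := fun a D => filter_congr fun b _ => G.adj_comm a b
  obtain ⟨f, hfP, hfA, hfi, hfG⟩ := forest_embed hR hF G (Fintype.card W) A₀ P₀ hA₀n hP₀n
    (fun a ha => by rw [hsym]; exact hAd a ha) (fun b hb => by rw [← hsym]; exact hPd b hb)
    _ (univ.filter (fun x => x ∉ Ω)) rfl (card_le_univ _) (by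
      intro x hx
      simpa using hx)
  have hmem : ∀ x, x ∉ Ω → x ∈ univ.filter (fun x => x ∉ Ω) := fun x hx => by simpa using hx
  have hP₀' : ∀ x ∈ P₀, x ∈ P ∧ (∀ j, G.Adj x (Y j)) ∧ ∀ i, X i ≠ x := by
    intro x hx
    obtain ⟨h1, h2⟩ := mem_sdiff.1 (hP₀ hx)
    obtain ⟨h3, h4⟩ := mem_filter.1 h1
    exact ⟨by simpa using h3, h4, fun i hi => h2 (mem_image.2 ⟨i, mem_univ _, hi⟩)⟩
  have hA₀' : ∀ y ∈ A₀, y ∉ P ∧ (∀ i, G.Adj (X i) y) ∧ ∀ j, Y j ≠ y := by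
    intro y hy
    obtain ⟨h1, h2⟩ := mem_sdiff.1 (hA₀ hy)
    obtain ⟨-, h4⟩ := mem_filter.1 h1
    refine ⟨?_, h4, fun i hi => h2 (mem_image.2 ⟨i, mem_univ _, hi⟩)⟩
    obtain ⟨x, hx⟩ := card_pos.1 (lt_of_le_of_lt (Nat.zero_le _) (hAd y hy))
    obtain ⟨hx1, hx2⟩ := mem_filter.1 hx
    exact (hP x y hx2).1 (hP₀' x hx1).1
  obtain ⟨j₁⟩ : Nonempty ((Ω ∩ R : Set W) ↪ Fin r) := by
    refine Function.Embedding.nonempty_of_card_le ?_
    rw [Fintype.card_fin, ← Nat.card_eq_fintype_card]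
    exact hΩ₁
  obtain ⟨j₂⟩ : Nonempty ((Ω \ R : Set W) ↪ Fin r) := by
    refine Function.Embedding.nonempty_of_card_le ?_
    rw [Fintype.card_fin, ← Nat.card_eq_fintype_card]
    exact hΩ₂
  set c : W → V := fun x => if h : x ∈ Ω ∩ R then X (j₁ ⟨x, h⟩) else
    if h' : x ∈ Ω \ R then Y (j₂ ⟨x, h'⟩) else f x with hc
  have hc1 : ∀ x (h : x ∈ Ω ∩ R), c x = X (j₁ ⟨x, h⟩) := fun x h => by simp only [hc, dif_pos h]
  have hc2 : ∀ x (h : x ∈ Ω \ R), c x = Y (j₂ ⟨x, h⟩) := fun x h => by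
    have h1 : x ∉ Ω ∩ R := fun h' => h.2 h'.2
    simp only [hc, dif_neg h1, dif_pos h]
  have hc3 : ∀ x, x ∉ Ω → c x = f x := fun x h => by
    have h1 : x ∉ Ω ∩ R := fun h' => h h'.1
    have h2 : x ∉ Ω \ R := fun h' => h h'.1
    simp only [hc, dif_neg h1, dif_neg h2]
  have hcR : ∀ x ∈ R, c x ∈ P := by
    intro x hx
    by_cases hxΩ : x ∈ Ω
    · rw [hc1 x ⟨hxΩ, hx⟩]
      simpa using hXP _
    · rw [hc3 x hxΩ]
      exact (hP₀' _ (hfP x (hmem x hxΩ) hx)).1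
  have hcA : ∀ x, x ∉ R → c x ∉ P := by
    intro x hx
    by_cases hxΩ : x ∈ Ω
    · rw [hc2 x ⟨hxΩ, hx⟩]
      refine (hP _ _ (hXY (j₂ ⟨x, hxΩ, hx⟩) _)).1 ?_
      simpa using hXP _
    · rw [hc3 x hxΩ]
      exact (hA₀' _ (hfA x (hmem x hxΩ) hx)).1
  have hadj : ∀ x y, x ∈ R → y ∉ R → B.Adj x y → G.Adj (c x) (c y) := by
    intro x y hx hy hxy
    by_cases hxΩ : x ∈ Ω <;> by_cases hyΩ : y ∈ Ω
    · rw [hc1 x ⟨hxΩ, hx⟩, hc2 y ⟨hyΩ, hy⟩]
      exact hXY _ _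
    · rw [hc1 x ⟨hxΩ, hx⟩, hc3 y hyΩ]
      exact (hA₀' _ (hfA y (hmem y hyΩ) hy)).2.1 _
    · rw [hc3 x hxΩ, hc2 y ⟨hyΩ, hy⟩]
      exact (hP₀' _ (hfP x (hmem x hxΩ) hx)).2.1 _
    · rw [hc3 x hxΩ, hc3 y hyΩ]
      exact hfG x (hmem x hxΩ) y (hmem y hyΩ) hxy
  refine ⟨⟨⟨c, ?_⟩, ?_⟩, hcR, hcA⟩
  · intro x y hxy
    by_cases hx : x ∈ R
    · exact hadj x y hx ((hR x y hxy).1 hx) hxy
    · have hy : y ∈ R := by
        by_contra hy
        exact hx ((hR x y hxy).2 hy)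
      exact (hadj y x hy hx hxy.symm).symm
  · intro x y hxy
    have hxy : c x = c y := hxy
    by_cases hx : x ∈ R <;> by_cases hy : y ∈ R
    · by_cases hxΩ : x ∈ Ω <;> by_cases hyΩ : y ∈ Ω
      · rw [hc1 x ⟨hxΩ, hx⟩, hc1 y ⟨hyΩ, hy⟩] at hxy
        exact congrArg Subtype.val (j₁.injective (hX hxy))
      · rw [hc1 x ⟨hxΩ, hx⟩, hc3 y hyΩ] at hxy
        exact absurd hxy ((hP₀' _ (hfP y (hmem y hyΩ) hy)).2.2 _)
      · rw [hc3 x hxΩ, hc1 y ⟨hyΩ, hy⟩] at hxy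
        exact absurd hxy.symm ((hP₀' _ (hfP x (hmem x hxΩ) hx)).2.2 _)
      · rw [hc3 x hxΩ, hc3 y hyΩ] at hxy
        exact hfi x (hmem x hxΩ) y (hmem y hyΩ) hxy
    · exact absurd (hxy ▸ hcR x hx) (hcA y hy)
    · exact absurd (hxy ▸ hcR y hy) (hcA x hx)
    · by_cases hxΩ : x ∈ Ω <;> by_cases hyΩ : y ∈ Ω
      · rw [hc2 x ⟨hxΩ, hx⟩, hc2 y ⟨hyΩ, hy⟩] at hxy
        exact congrArg Subtype.val (j₂.injective (hY hxy))
      · rw [hc2 x ⟨hxΩ, hx⟩, hc3 y hyΩ] at hxy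
        exact absurd hxy ((hA₀' _ (hfA y (hmem y hyΩ) hy)).2.2 _)
      · rw [hc3 x hxΩ, hc2 y ⟨hyΩ, hy⟩] at hxy
        exact absurd hxy.symm ((hA₀' _ (hfA x (hmem x hxΩ) hx)).2.2 _)
      · rw [hc3 x hxΩ, hc3 y hyΩ] at hxy
        exact hfi x (hmem x hxΩ) y (hmem y hyΩ) hxy

end Pool.Agent.Lib.H45Glue
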