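import Pool.Agent.Lib.H45Glue.ESF
import Pool.Agent.Lib.H45Glue.Hom2

/-!
# Graphs without four-cycles, and the bounding function
-/

namespace Pool.Agent.Lib.H45Glue

open SimpleGraph Finset Pool.Agent.Lib.Helper15.Glue

/-- The graph contains a cycle of length four. -/
def HasFourCycle {W : Type*} (H : SimpleGraph W) : Prop :=
  ∃ a b c d, a ≠ c ∧ b ≠ d ∧ H.Adj a b ∧ H.Adj b c ∧ H.Adj c d ∧ H.Adj d a

/-- The incidence relation of points and non-vertical lines of the affine plane. -/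
def planeRel (p : ℕ) : (ZMod p × ZMod p) ⊕ (ZMod p × ZMod p) →
    (ZMod p × ZMod p) ⊕ (ZMod p × ZMod p) → Prop
  | Sum.inl x, Sum.inr l => x.2 = l.1 * x.1 + l.2
  | Sum.inr l, Sum.inl x => x.2 = l.1 * x.1 + l.2
  | _, _ => False

/-- The incidence graph of points and non-vertical lines of the affine plane. -/
def plane (p : ℕ) : SimpleGraph ((ZMod p × ZMod p) ⊕ (ZMod p × ZMod p)) where
  Adj := planeRel p
  symm := ⟨by
    rintro (a | a) (b | b) h
    · exact h
    · exact h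
    · exact h
    · exact h⟩
  loopless := ⟨by
    rintro (a | a) h
    · exact h
    · exact h⟩

lemma plane_no_C4 (p : ℕ) [Fact p.Prime] : ¬ HasFourCycle (plane p) := by
  have key : ∀ x y l m : ZMod p × ZMod p, x ≠ y → l ≠ m → x.2 = l.1 * x.1 + l.2 →
      y.2 = l.1 * y.1 + l.2 → x.2 = m.1 * x.1 + m.2 → y.2 = m.1 * y.1 + m.2 → False := by
    intro x y l m hxy hlm h1 h2 h3 h4
    have h5 : (l.1 - m.1) * (x.1 - y.1) = 0 := by linear_combination -h1 + h2 + h3 - h4
    rcases mul_eq_zero.1 h5 with h6 | h6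
    · have h7 : l.1 = m.1 := sub_eq_zero.1 h6
      refine hlm (Prod.ext h7 ?_)
      rw [h1, h7] at h3
      exact add_left_cancel h3
    · have h7 : x.1 = y.1 := sub_eq_zero.1 h6
      refine hxy (Prod.ext h7 ?_)
      rw [h1, h2, h7]
  rintro ⟨a, b, c, d, hac, hbd, h1, h2, h3, h4⟩
  rcases a with a | a <;> rcases b with b | b <;> rcases c with c | c <;> rcases d with d | d <;>
    first
    | exact h1
    | exact h2
    | exact h3
    | exact h4
    | exact key a c b d (fun h => hac (congrArg _ h)) (fun h => hbd (congrArg _ h)) h1 h2 h4 h3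
    | exact key b d a c (fun h => hbd (congrArg _ h)) (fun h => hac (congrArg _ h)) h1 h4 h2 h3

lemma cube_le_plane (p : ℕ) [Fact p.Prime] : p ^ 3 ≤ (plane p).edgeSet.ncard := by
  classical
  let e : ZMod p × ZMod p × ZMod p → Sym2 ((ZMod p × ZMod p) ⊕ (ZMod p × ZMod p)) :=
    fun t => s(Sum.inl (t.1, t.2.1 * t.1 + t.2.2), Sum.inr (t.2.1, t.2.2))
  have he : Function.Injective e := by
    rintro ⟨x, a, b⟩ ⟨x', a', b'⟩ h
    have h1 : (s(Sum.inl (x, a * x + b), Sum.inr (a, b)) :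
        Sym2 ((ZMod p × ZMod p) ⊕ (ZMod p × ZMod p))) =
        s(Sum.inl (x', a' * x' + b'), Sum.inr (a', b')) := h
    rw [Sym2.eq_iff] at h1
    rcases h1 with ⟨h2, h3⟩ | ⟨h2, -⟩
    · have h4 := Sum.inl_injective h2
      have h5 := Sum.inr_injective h3
      simp only [Prod.mk.injEq] at h4 h5 ⊢
      exact ⟨h4.1, h5.1, h5.2⟩
    · exact absurd h2 (by simp)
  have h1 : Set.range e ⊆ (plane p).edgeSet := by
    rintro _ ⟨t, rfl⟩
    exact (rfl : t.2.1 * t.1 + t.2.2 = t.2.1 * t.1 + t.2.2)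
  have h2 := Set.ncard_le_ncard h1 (Set.toFinite _)
  refine le_trans (le_of_eq ?_) h2
  rw [← Set.image_univ, Set.ncard_image_of_injective _ he, Set.ncard_univ,
    Nat.card_eq_fintype_card]
  simp only [Fintype.card_prod, ZMod.card]
  ring

lemma free_plane {W : Type*} {H : SimpleGraph W} (h : HasFourCycle H) (p : ℕ) [Fact p.Prime] :
    H.Free (plane p) := by
  rintro ⟨c⟩
  obtain ⟨x, y, z, w, hxz, hyw, h1, h2, h3, h4⟩ := h
  exact plane_no_C4 p ⟨c x, c y, c z, c w, fun h => hxz (c.injective h),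
    fun h => hyw (c.injective h), c.toHom.map_adj h1, c.toHom.map_adj h2, c.toHom.map_adj h3,
    c.toHom.map_adj h4⟩

/-- `n ^ (2 - 1 / (s + 1)) = O(f(n))`. -/
def Big (f : ℕ → ℕ) (s : ℕ) : Prop := ∃ c : ℕ, ∀ n, n ^ (2 * s + 1) ≤ (c * f n) ^ (s + 1)

lemma big_of_C4 {f : ℕ → ℕ} (hf : Adm f) {W : Type*} [Fintype W] {H : SimpleGraph W}
    (hd : ∀ n, extremalNumber n H ≤ f n) (h : HasFourCycle H) : Big f 1 := by
  classical
  refine ⟨23 * (1 + Fintype.card W ^ 2), fun n => ?_⟩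
  rcases lt_or_ge n 8 with hn | hn
  · have h1 := hf.lin n
    have h2 : n ^ (2 * 1 + 1) ≤ (23 * n) ^ (1 + 1) := by
      clear h1
      interval_cases n <;> norm_num
    refine h2.trans (Nat.pow_le_pow_left ?_ _)
    refine Nat.mul_le_mul ?_ h1
    nlinarith [Nat.zero_le (Fintype.card W ^ 2)]
  · set k := Nat.sqrt (n / 8) with hk
    have hk1 : k ≠ 0 := by
      rw [hk, Ne, Nat.sqrt_eq_zero]
      omega
    obtain ⟨p, hp, hp1, hp2⟩ := Nat.exists_prime_lt_and_le_two_mul k hk1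
    have : Fact p.Prime := ⟨hp⟩
    have h1 : 2 * p ^ 2 ≤ n := by
      have h2 : k * k ≤ n / 8 := Nat.sqrt_le (n / 8)
      have h3 : 8 * (k * k) ≤ n := by omega
      nlinarith
    have h4 : n < 8 * p ^ 2 := by
      have h5 : n / 8 < (k + 1) * (k + 1) := Nat.lt_succ_sqrt (n / 8)
      have h6 : n < 8 * ((k + 1) * (k + 1)) := by omega
      have h7 : (k + 1) * (k + 1) ≤ p * p := Nat.mul_le_mul hp1 hp1
      nlinarith
    have h8 : p ^ 3 ≤ f n + Fintype.card W ^ 2 := by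
      have h9 := card_edgeFinset_le_extremalNumber (free_plane h p)
      rw [← ncard_edgeSet] at h9
      have h10 : Fintype.card ((ZMod p × ZMod p) ⊕ (ZMod p × ZMod p)) = 2 * p ^ 2 := by
        simp only [Fintype.card_sum, Fintype.card_prod, ZMod.card]
        ring
      rw [h10] at h9
      have h11 := extremalNumber_le_add H h1
      have h12 := hd n
      have h13 := cube_le_plane p
      omega
    have h14 : p ^ 3 ≤ (1 + Fintype.card W ^ 2) * f n := by
      have h15 := hf.lin n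
      have h16 : Fintype.card W ^ 2 ≤ Fintype.card W ^ 2 * f n :=
        Nat.le_mul_of_pos_right _ (by omega)
      nlinarith
    calc n ^ (2 * 1 + 1) ≤ (8 * p ^ 2) ^ 3 := Nat.pow_le_pow_left h4.le _
      _ ≤ (23 * p ^ 3) ^ 2 := by
        have : (8 * p ^ 2) ^ 3 = 512 * (p ^ 3) ^ 2 := by ring
        rw [this]
        nlinarith [Nat.zero_le ((p ^ 3) ^ 2)]
      _ ≤ (23 * ((1 + Fintype.card W ^ 2) * f n)) ^ 2 :=
        Nat.pow_le_pow_left (Nat.mul_le_mul_left _ h14) _
      _ = _ := by ring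

lemma le_of_pow_bound {f : ℕ → ℕ} (hf : Adm f) {s c K K' : ℕ}
    (hc : ∀ n, n ^ (2 * s + 1) ≤ (c * f n) ^ (s + 1)) {n e : ℕ}
    (he : (e - K' * n) ^ (s + 1) ≤ K * n ^ (2 * s + 1)) : e ≤ (K' + K * c) * f n := by
  have h1 : (e - K' * n) ^ (s + 1) ≤ (K * c * f n) ^ (s + 1) := by
    refine he.trans ((Nat.mul_le_mul_left _ (hc n)).trans ?_)
    rw [mul_assoc K c, mul_pow K]
    refine Nat.mul_le_mul_right _ ?_
    exact Nat.le_self_pow (Nat.succ_ne_zero s) K
  have h2 := (Nat.pow_le_pow_iff_left (Nat.succ_ne_zero s)).1 h1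
  have h3 : K' * n ≤ K' * f n := Nat.mul_le_mul_left _ (hf.lin n)
  rw [add_mul]
  omega

/-- Bipartite graphs in which one class has, apart from at most `s + 1` vertices, degrees at
most `s + 1`. -/
lemma esf_of_oneSided {f : ℕ → ℕ} (hf : Adm f) {W : Type*} [Fintype W] (B : SimpleGraph W)
    (R Ω : Set W) (hΩR : Ω ⊆ R) (hR : ∀ x y, B.Adj x y → (x ∈ R ↔ y ∉ R)) (s : ℕ)
    (hΩ : Ω.ncard ≤ s + 1) (hdeg : ∀ y ∈ R, y ∉ Ω → {x | B.Adj y x}.ncard ≤ s + 1)
    (hbig : Big f s) (r : W) : ESF f B r := by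
  classical
  obtain ⟨c, hc⟩ := hbig
  refine ⟨(s + 1) + ((Fintype.card W + (s + 1)) ^ (s + 1) + (Fintype.card W + (s + 1))) * c,
    fun n G P hP hcop => ?_⟩
  by_cases hr : r ∈ R
  · rcases exists_oriented B R Ω hΩR hR s hΩ hdeg G P hP with h | ⟨d, -, hd⟩
    · rw [Fintype.card_fin] at h
      exact le_of_pow_bound hf hc h
    · exact absurd (hcop d) (hd r hr)
  · have hP' : ∀ a b, G.Adj a b → (a ∈ Pᶜ ↔ b ∉ Pᶜ) := by
      intro a b hab
      have := hP a b hab
      simp only [Set.mem_compl_iff]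
      tauto
    rcases exists_oriented B R Ω hΩR hR s hΩ hdeg G Pᶜ hP' with h | ⟨d, hd, -⟩
    · rw [Fintype.card_fin] at h
      exact le_of_pow_bound hf hc h
    · exact absurd (hcop d) (hd r hr)

/-- Bipartite graphs which become forests when at most `s` vertices of each class are deleted. -/
lemma esf_of_forest {f : ℕ → ℕ} (hf : Adm f) {W : Type*} [Fintype W] (B : SimpleGraph W)
    (R Ω : Set W) (hR : ∀ x y, B.Adj x y → (x ∈ R ↔ y ∉ R)) (s : ℕ)
    (hΩ₁ : (Ω ∩ R).ncard ≤ s) (hΩ₂ : (Ω \ R).ncard ≤ s) (hF : (B.induce Ωᶜ).IsAcyclic)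
    (hbig : Big f s) (r : W) : ESF f B r := by
  classical
  obtain ⟨c, hc⟩ := hbig
  have fin : ∀ (n e : ℕ), e ^ (s + 1) ≤
      4 * (Fintype.card W + (s + 1) ^ 2) * n ^ (2 * s + 1) →
      e ≤ (0 + 4 * (Fintype.card W + (s + 1) ^ 2) * c) * f n := by
    intro n e he
    refine le_of_pow_bound hf hc ?_
    rw [zero_mul, Nat.sub_zero]
    exact he
  refine ⟨0 + 4 * (Fintype.card W + (s + 1) ^ 2) * c, fun n G P hP hcop => ?_⟩
  by_cases hr : r ∈ R
  · have hP' : ∀ a b, G.Adj a b → (a ∈ Pᶜ ↔ b ∉ Pᶜ) := by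
      intro a b hab
      have := hP a b hab
      simp only [Set.mem_compl_iff]
      tauto
    rcases exists_oriented_forest B R Ω hR s hΩ₁ hΩ₂ hF G Pᶜ hP' with h | ⟨d, hd, -⟩
    · rw [Fintype.card_fin] at h
      exact fin n _ h
    · exact absurd (hcop d) (hd r hr)
  · rcases exists_oriented_forest B R Ω hR s hΩ₁ hΩ₂ hF G P hP with h | ⟨d, -, hd⟩
    · rw [Fintype.card_fin] at h
      exact fin n _ h
    · exact absurd (hcop d) (hd r hr)

/-- The monotone and at least linear hull of a function. -/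
noncomputable def hull (g : ℕ → ℕ) (n : ℕ) : ℕ := (range (n + 1)).sup g + n

lemma adm_hull (g : ℕ → ℕ) : Adm (hull g) where
  mono := by
    intro a b hab
    refine Nat.add_le_add ?_ hab
    exact sup_mono (range_mono (by omega))
  lin := fun n => Nat.le_add_left _ _

lemma le_hull (g : ℕ → ℕ) (n : ℕ) : g n ≤ hull g n := by
  have h : g n ≤ (range (n + 1)).sup g := le_sup (f := g) (mem_range.2 (Nat.lt_succ_self n))
  exact h.trans (Nat.le_add_right _ _)

lemma hull_le (g : ℕ → ℕ) (n D : ℕ) (h : ∀ k ≤ n, g k ≤ g n + D) :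
    hull g n ≤ g n + D + n := by
  refine Nat.add_le_add_right ?_ _
  refine Finset.sup_le fun k hk => h k ?_
  have := mem_range.1 hk
  omega

end Pool.Agent.Lib.H45Glue
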