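import Pool.Agent.Lib.Helper15.Glue.Theta

/-!
# Asymmetric dependent random choice

A bipartite graph in which one class has, apart from at most `s` vertices, degrees at most `s`
can be found, with a prescribed orientation, in every two-coloured graph on `n` vertices with
more than `K n ^ (2 - 1 / s)` edges.
-/

namespace Pool.Agent.Lib.H45Glue

open SimpleGraph Finset Pool.Agent.Lib.Helper15.Glue

variable {V : Type*} [Fintype V]

open Classical in
/-- The common neighbours of a set of vertices. -/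
noncomputable def comNb (G : SimpleGraph V) (D : Finset V) : Finset V :=
  univ.filter (fun y => ∀ x ∈ D, G.Adj x y)

lemma mem_comNb {G : SimpleGraph V} {D : Finset V} {y : V} :
    y ∈ comNb G D ↔ ∀ x ∈ D, G.Adj x y := by
  simp [comNb]

open Classical in
/-- The vertices of `P` adjacent to all members of a tuple. -/
noncomputable def hits (G : SimpleGraph V) (P : Finset V) {s : ℕ} (T : Fin s ↪ V) : Finset V :=
  P.filter (fun x => ∀ i, G.Adj x (T i))

open Classical in
lemma pow_le_tuples (G : SimpleGraph V) (s K : ℕ) (hK : s ≤ K) (y : V) :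
    (G.degree y - K) ^ s ≤ #(univ.filter (fun T : Fin s ↪ V => ∀ i, G.Adj y (T i))) := by
  have h6 : Fintype.card (Fin s ↪ G.neighborSet y) ≤
      #(univ.filter (fun T : Fin s ↪ V => ∀ i, G.Adj y (T i))) := by
    rw [← card_univ]
    refine card_le_card_of_injOn (fun T => T.trans (Function.Embedding.subtype _)) ?_ ?_
    · intro T _
      simp only [coe_filter, mem_univ, true_and, Set.mem_ofPred_eq]
      intro i
      exact (T i).2
    · intro T _ T' _ hTT'
      ext i
      have := congrArg (fun e : Fin s ↪ V => e i) hTT'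
      exact this
  refine le_trans ?_ h6
  rw [Fintype.card_embedding_eq, Fintype.card_fin, card_neighborSet_eq_degree]
  refine le_trans (Nat.pow_le_pow_left ?_ _) (Nat.pow_sub_le_descFactorial _ _)
  omega

open Classical in
lemma sub_le_sum_degree (G : SimpleGraph V) (P : Finset V)
    (hP : ∀ a b, G.Adj a b → (a ∈ P ↔ b ∉ P)) (K : ℕ) :
    G.edgeSet.ncard - K * Fintype.card V ≤ ∑ y ∈ P, (G.degree y - K) := by
  have hb : G.IsBipartiteWith (P : Set V) ((Pᶜ : Finset V) : Set V) := by
    refine ⟨by rw [coe_compl]; exact disjoint_compl_right, fun a b hab => ?_⟩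
    by_cases ha : a ∈ P
    · exact Or.inl ⟨ha, by simpa using (hP a b hab).1 ha⟩
    · refine Or.inr ⟨by simpa using ha, ?_⟩
      by_contra hb
      exact ha ((hP a b hab).2 hb)
  have h1 : ∑ x ∈ P, G.degree x = #G.edgeFinset := isBipartiteWith_sum_degrees_eq_card_edges hb
  rw [ncard_edgeSet, ← h1, Nat.sub_le_iff_le_add]
  have h3 : ∑ y ∈ P, G.degree y ≤ ∑ y ∈ P, ((G.degree y - K) + K) :=
    sum_le_sum fun y _ => by omega
  rw [sum_add_distrib, sum_const, smul_eq_mul] at h3
  have h4 : #P * K ≤ Fintype.card V * K := Nat.mul_le_mul_right _ (card_le_univ _)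
  rw [mul_comm K (Fintype.card V)]
  omega

open Classical in
lemma edges_pow_le (G : SimpleGraph V) (P : Finset V)
    (hP : ∀ a b, G.Adj a b → (a ∈ P ↔ b ∉ P)) (s : ℕ) :
    (G.edgeSet.ncard - (s + 1) * Fintype.card V) ^ (s + 1) ≤
      Fintype.card V ^ s * ∑ T : Fin (s + 1) ↪ V, #(hits G P T) := by
  have h2 : ∑ T : Fin (s + 1) ↪ V, #(hits G P T) =
      ∑ x ∈ P, #(univ.filter (fun T : Fin (s + 1) ↪ V => ∀ i, G.Adj x (T i))) := by
    have h3 : ∀ T : Fin (s + 1) ↪ V, #(hits G P T) =
        ∑ x ∈ P, if (∀ i, G.Adj x (T i)) then 1 else 0 := by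
      intro T
      rw [hits, card_filter]
    rw [sum_congr rfl fun T _ => h3 T, sum_comm]
    refine sum_congr rfl fun x _ => ?_
    rw [← card_filter]
  calc (G.edgeSet.ncard - (s + 1) * Fintype.card V) ^ (s + 1)
      ≤ (∑ y ∈ P, (G.degree y - (s + 1))) ^ (s + 1) :=
        Nat.pow_le_pow_left (sub_le_sum_degree G P hP (s + 1)) _
    _ ≤ #P ^ s * ∑ y ∈ P, (G.degree y - (s + 1)) ^ (s + 1) :=
        pow_sum_le_card_mul_sum_pow (fun _ _ => Nat.zero_le _) s
    _ ≤ Fintype.card V ^ s * ∑ y ∈ P, (G.degree y - (s + 1)) ^ (s + 1) :=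
        Nat.mul_le_mul_right _ (Nat.pow_le_pow_left (card_le_univ _) _)
    _ ≤ _ := by
        rw [h2]
        exact Nat.mul_le_mul_left _ (sum_le_sum fun y _ => pow_le_tuples G _ _ le_rfl y)

open Classical in
lemma sum_bad_le (G : SimpleGraph V) (P : Finset V) (s m : ℕ) :
    ∑ T : Fin (s + 1) ↪ V,
      #(((hits G P T).powersetCard (s + 1)).filter (fun D => #(comNb G D) < m)) ≤
      Fintype.card V ^ (s + 1) * m ^ (s + 1) := by
  have h1 : ∀ T : Fin (s + 1) ↪ V,
      #(((hits G P T).powersetCard (s + 1)).filter (fun D => #(comNb G D) < m)) =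
      ∑ D ∈ (P.powersetCard (s + 1)).filter (fun D => #(comNb G D) < m),
        if D ⊆ hits G P T then 1 else 0 := by
    intro T
    rw [← card_filter]
    congr 1
    ext D
    simp only [mem_filter, mem_powersetCard]
    have h2 : hits G P T ⊆ P := filter_subset _ _
    constructor
    · rintro ⟨⟨h3, h4⟩, h5⟩
      exact ⟨⟨⟨h3.trans h2, h4⟩, h5⟩, h3⟩
    · rintro ⟨⟨⟨-, h4⟩, h5⟩, h3⟩
      exact ⟨⟨h3, h4⟩, h5⟩
  rw [sum_congr rfl fun T _ => h1 T, sum_comm]
  have h2 : ∀ D ∈ (P.powersetCard (s + 1)).filter (fun D => #(comNb G D) < m),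
      (∑ T : Fin (s + 1) ↪ V, if D ⊆ hits G P T then 1 else 0) ≤ m ^ (s + 1) := by
    intro D hD
    rw [← card_filter]
    have h3 : #(univ.filter (fun T : Fin (s + 1) ↪ V => D ⊆ hits G P T)) ≤
        #(Fintype.piFinset (fun _ : Fin (s + 1) => comNb G D)) := by
      refine card_le_card_of_injOn (fun T => (T : Fin (s + 1) → V)) ?_ ?_
      · intro T hT
        rw [mem_coe, Fintype.mem_piFinset]
        intro i
        rw [mem_comNb]
        intro x hx
        exact (mem_filter.1 ((mem_filter.1 (mem_coe.1 hT)).2 hx)).2 i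
      · intro T _ T' _ hTT'
        exact DFunLike.coe_injective hTT'
    refine h3.trans ?_
    rw [Fintype.card_piFinset]
    simp only [prod_const, card_univ, Fintype.card_fin]
    exact Nat.pow_le_pow_left (mem_filter.1 hD).2.le _
  refine (sum_le_sum h2).trans ?_
  rw [sum_const, smul_eq_mul]
  refine Nat.mul_le_mul_right _ ((card_filter_le _ _).trans ?_)
  rw [card_powersetCard]
  refine (Nat.choose_le_pow _ _).trans (Nat.pow_le_pow_left ?_ _)
  exact card_le_univ P

/-- Dependent random choice: few edges, or a large subset of `P`, all of whose vertices are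
adjacent to `s + 1` fixed vertices, in which every set of `s + 1` vertices has at least `m`
common neighbours. -/
lemma exists_rich (G : SimpleGraph V) (P : Finset V)
    (hP : ∀ a b, G.Adj a b → (a ∈ P ↔ b ∉ P)) (s m a : ℕ) :
    (G.edgeSet.ncard - (s + 1) * Fintype.card V) ^ (s + 1) ≤
      (m ^ (s + 1) + a) * Fintype.card V ^ (2 * s + 1) ∨
    ∃ T : Fin (s + 1) ↪ V, ∃ A : Finset V, A ⊆ P ∧ a ≤ #A ∧
      (∀ x ∈ A, ∀ i, G.Adj x (T i)) ∧ ∀ D, D ⊆ A → #D = s + 1 → m ≤ #(comNb G D) := by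
  classical
  by_cases h : ∃ T : Fin (s + 1) ↪ V,
      #(((hits G P T).powersetCard (s + 1)).filter (fun D => #(comNb G D) < m)) + a <
        #(hits G P T)
  · right
    obtain ⟨T, hT⟩ := h
    set bad := ((hits G P T).powersetCard (s + 1)).filter (fun D => #(comNb G D) < m) with hbad
    have hne : ∀ D ∈ bad, D.Nonempty := by
      intro D hD
      rw [← card_pos, (mem_powersetCard.1 (mem_filter.1 hD).1).2]
      omega
    have hV : Nonempty V := ⟨T 0⟩
    choose! pk hpk using fun D (hD : D ∈ bad) => (hne D hD)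
    refine ⟨T, hits G P T \ bad.image pk, ?_, ?_, ?_, ?_⟩
    · exact sdiff_subset.trans (filter_subset _ _)
    · have h1 := le_card_sdiff (bad.image pk) (hits G P T)
      have h2 : #(bad.image pk) ≤ (bad.card) := card_image_le
      omega
    · intro x hx i
      exact (mem_filter.1 (mem_sdiff.1 hx).1).2 i
    · intro D hD hDc
      by_contra hcon
      have hDb : D ∈ bad := by
        refine mem_filter.2 ⟨mem_powersetCard.2 ⟨hD.trans sdiff_subset, hDc⟩, by omega⟩
      exact (mem_sdiff.1 (hD (hpk D hDb))).2 (mem_image_of_mem _ hDb)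
  · left
    push Not at h
    have h1 : ∑ T : Fin (s + 1) ↪ V, #(hits G P T) ≤
        Fintype.card V ^ (s + 1) * m ^ (s + 1) + Fintype.card V ^ (s + 1) * a := by
      refine (sum_le_sum fun T _ => h T).trans ?_
      rw [sum_add_distrib, sum_const, smul_eq_mul, card_univ, Fintype.card_embedding_eq,
        Fintype.card_fin]
      exact Nat.add_le_add (sum_bad_le G P s m)
        (Nat.mul_le_mul_right _ (Nat.descFactorial_le_pow _ _))
    refine (edges_pow_le G P hP s).trans ((Nat.mul_le_mul_left _ h1).trans (le_of_eq ?_))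
    have h2 : 2 * s + 1 = s + (s + 1) := by ring
    rw [h2, pow_add]
    ring

/-- The asymmetric form of the theorem of Furedi and of Alon, Krivelevich and Sudakov. -/
theorem exists_oriented {W : Type*} [Fintype W] (B : SimpleGraph W) (R Ω : Set W)
    (hΩR : Ω ⊆ R) (hR : ∀ x y, B.Adj x y → (x ∈ R ↔ y ∉ R)) (s : ℕ) (hΩ : Ω.ncard ≤ s + 1)
    (hdeg : ∀ y ∈ R, y ∉ Ω → {x | B.Adj y x}.ncard ≤ s + 1) (G : SimpleGraph V) (P : Set V)
    (hP : ∀ a b, G.Adj a b → (a ∈ P ↔ b ∉ P)) :
    (G.edgeSet.ncard - (s + 1) * Fintype.card V) ^ (s + 1) ≤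
      ((Fintype.card W + (s + 1)) ^ (s + 1) + (Fintype.card W + (s + 1))) *
        Fintype.card V ^ (2 * s + 1) ∨
    ∃ c : Copy B G, (∀ x, x ∉ R → c x ∈ P) ∧ ∀ y ∈ R, c y ∉ P := by
  classical
  rcases exists_rich G P.toFinset (by simpa using hP) s (Fintype.card W + (s + 1))
    (Fintype.card W + (s + 1)) with h | ⟨T, A, hAP, hAc, hAT, hA⟩
  · exact Or.inl h
  right
  have hAP' : ∀ x ∈ A, x ∈ P := fun x hx => by simpa using hAP hx
  -- embed everything in `A`
  obtain ⟨ι⟩ : Nonempty (W ↪ A) := by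
    refine Function.Embedding.nonempty_of_card_le ?_
    rw [Fintype.card_coe]
    omega
  obtain ⟨j⟩ : Nonempty (Ω ↪ Fin (s + 1)) := by
    refine Function.Embedding.nonempty_of_card_le ?_
    rw [Fintype.card_fin, ← Nat.card_eq_fintype_card]
    exact hΩ
  have hAne : A.Nonempty := by
    rw [← card_pos]
    omega
  have hTP : ∀ i, T i ∉ P := by
    intro i
    obtain ⟨a, ha⟩ := hAne
    exact (hP _ _ (hAT a ha i)).1 (hAP' a ha)
  -- the sets of size `s + 1`
  have hD : ∀ y : (R \ Ω : Set W), ∃ D : Finset V,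
      (∀ x, B.Adj y x → ((ι x : A) : V) ∈ D) ∧ D ⊆ A ∧ #D = s + 1 := by
    intro y
    set N : Finset V := (univ.filter (fun x => B.Adj y x)).image (fun x => ((ι x : A) : V))
      with hN
    have h1 : N ⊆ A := by
      intro z hz
      obtain ⟨x, -, rfl⟩ := mem_image.1 hz
      exact (ι x).2
    have h2 : #N ≤ s + 1 := by
      refine card_image_le.trans ?_
      have h3 := hdeg y y.2.1 y.2.2
      rw [Set.ncard_eq_toFinset_card'] at h3
      have h4 : univ.filter (fun x => B.Adj y x) = {x | B.Adj (y : W) x}.toFinset := by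
        ext x
        simp
      rw [h4]
      exact h3
    obtain ⟨D, hND, hDA, hDc⟩ := exists_subsuperset_card_eq h1 h2 (by omega)
    refine ⟨D, fun x hx => hND (mem_image.2 ⟨x, by simpa using hx, rfl⟩), hDA, hDc⟩
  choose D hD1 hD2 hD3 using hD
  obtain ⟨g, hg1, hg2⟩ := (all_card_le_biUnion_card_iff_exists_injective
    (fun y : (R \ Ω : Set W) => comNb G (D y) \ univ.image T)).1 (by
      intro S
      rcases S.eq_empty_or_nonempty with h0 | ⟨y, hy⟩
      · subst h0
        simp
      · have h1 : #S ≤ Fintype.card W := by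
          refine (card_le_univ S).trans ?_
          exact set_fintype_card_le_univ _
        have h2 : #(comNb G (D y) \ univ.image T) ≤
            #(S.biUnion fun y => comNb G (D y) \ univ.image T) :=
          card_le_card (subset_biUnion_of_mem (fun y => comNb G (D y) \ univ.image T) hy)
        have h3 := le_card_sdiff (univ.image T) (comNb G (D y))
        have h4 : #(univ.image T) ≤ s + 1 := by
          refine card_image_le.trans ?_
          rw [card_univ, Fintype.card_fin]
        have h5 := hA _ (hD2 y) (hD3 y)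
        omega)
  have hg3 : ∀ y, g y ∈ comNb G (D y) := fun y => (mem_sdiff.1 (hg2 y)).1
  have hgT : ∀ y i, g y ≠ T i := fun y i h =>
    (mem_sdiff.1 (hg2 y)).2 (mem_image.2 ⟨i, mem_univ _, h.symm⟩)
  have hgP : ∀ y : (R \ Ω : Set W), g y ∉ P := by
    intro y
    have h1 : (D y).Nonempty := by
      rw [← card_pos, hD3]
      omega
    obtain ⟨x, hx⟩ := h1
    exact (hP _ _ (mem_comNb.1 (hg3 y) x hx)).1 (hAP' x (hD2 y hx))
  set c : W → V := fun x => if h : x ∈ R \ Ω then g ⟨x, h⟩ else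
    if h' : x ∈ Ω then T (j ⟨x, h'⟩) else ((ι x : A) : V) with hc
  have hc1 : ∀ x (h : x ∈ R \ Ω), c x = g ⟨x, h⟩ := fun x h => by simp only [hc, dif_pos h]
  have hc2 : ∀ x, x ∉ R → c x = ((ι x : A) : V) := fun x h => by
    have h1 : x ∉ R \ Ω := fun h' => h h'.1
    have h2 : x ∉ Ω := fun h' => h (hΩR h')
    simp only [hc, dif_neg h1, dif_neg h2]
  have hc3 : ∀ x (h : x ∈ Ω), c x = T (j ⟨x, h⟩) := fun x h => by
    have h1 : x ∉ R \ Ω := fun h' => h'.2 h
    simp only [hc, dif_neg h1, dif_pos h]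
  have hcR : ∀ y ∈ R, c y ∉ P := by
    intro y hy
    by_cases hyΩ : y ∈ Ω
    · rw [hc3 y hyΩ]
      exact hTP _
    · rw [hc1 y ⟨hy, hyΩ⟩]
      exact hgP _
  have hcA : ∀ x, x ∉ R → c x ∈ P := by
    intro x hx
    rw [hc2 x hx]
    exact hAP' _ (ι x).2
  have hadj : ∀ x y, x ∉ R → y ∈ R → B.Adj y x → G.Adj (c x) (c y) := by
    intro x y hx hy hxy
    by_cases hyΩ : y ∈ Ω
    · rw [hc2 x hx, hc3 y hyΩ]
      exact hAT _ (ι x).2 _
    · rw [hc2 x hx, hc1 y ⟨hy, hyΩ⟩]
      exact mem_comNb.1 (hg3 ⟨y, hy, hyΩ⟩) _ (hD1 ⟨y, hy, hyΩ⟩ x hxy)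
  refine ⟨⟨⟨c, ?_⟩, ?_⟩, hcA, hcR⟩
  · intro x y hxy
    by_cases hx : x ∈ R
    · exact (hadj y x ((hR x y hxy).1 hx) hx hxy).symm
    · have hy : y ∈ R := by
        by_contra hy
        exact hx ((hR x y hxy).2 hy)
      exact hadj x y hx hy hxy.symm
  · intro x y hxy
    have hxy : c x = c y := hxy
    by_cases hx : x ∈ R <;> by_cases hy : y ∈ R
    · by_cases hxΩ : x ∈ Ω <;> by_cases hyΩ : y ∈ Ω
      · rw [hc3 x hxΩ, hc3 y hyΩ] at hxy
        exact congrArg Subtype.val (j.injective (T.injective hxy))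
      · rw [hc3 x hxΩ, hc1 y ⟨hy, hyΩ⟩] at hxy
        exact absurd hxy.symm (hgT _ _)
      · rw [hc1 x ⟨hx, hxΩ⟩, hc3 y hyΩ] at hxy
        exact absurd hxy (hgT _ _)
      · rw [hc1 x ⟨hx, hxΩ⟩, hc1 y ⟨hy, hyΩ⟩] at hxy
        exact congrArg Subtype.val (hg1 hxy)
    · exact absurd (hxy ▸ hcA y hy) (hcR x hx)
    · exact absurd (hxy ▸ hcA x hx) (hcR y hy)
    · rw [hc2 x hx, hc2 y hy] at hxy
      exact ι.injective (Subtype.ext hxy)

end Pool.Agent.Lib.H45Glue
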