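import Pool.Agent.Lib.Helper15.Glue.Theta

/-!
# The asymmetric property with respect to a general bound

The arguments of `Pool.Agent.Lib.Helper15.Glue`, with the extremal number of the graph replaced
by an arbitrary function `f`.
-/

namespace Pool.Agent.Lib.H45Glue

open SimpleGraph Finset Pool.Agent.Lib.Helper15.Glue

/-- Every graph on `n` vertices with a proper two-colouring such that all copies of `H` have
their root in the first class `P` has `O(f(n))` edges. -/
def ESF (f : ℕ → ℕ) {W : Type*} (H : SimpleGraph W) (r : W) : Prop :=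
  ∃ C : ℕ, ∀ (n : ℕ) (G : SimpleGraph (Fin n)) (P : Set (Fin n)),
    (∀ a b, G.Adj a b → (a ∈ P ↔ b ∉ P)) → (∀ c : Copy H G, c r ∈ P) →
      G.edgeSet.ncard ≤ C * f n

/-- The functions used as bounds: monotone, and at least linear. -/
structure Adm (f : ℕ → ℕ) : Prop where
  mono : Monotone f
  lin : ∀ n, n ≤ f n

variable {f : ℕ → ℕ}

lemma esf_of_esAt (hf : Adm f) {W : Type*} {H : SimpleGraph W} {r : W}
    (hd : ∀ n, extremalNumber n H ≤ f n) (h : ESAt H r) : ESF f H r := by
  obtain ⟨C, hC⟩ := h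
  refine ⟨2 * C, fun n G P hP hc => (hC n G P hP hc).trans ?_⟩
  have h1 := hd n
  have h2 := hf.lin n
  calc C * (extremalNumber n H + n) ≤ C * (f n + f n) := Nat.mul_le_mul_left _ (by omega)
    _ = 2 * C * f n := by ring

/-- The bound of `ESF` on an arbitrary vertex type. -/
lemma ESF.bound {W : Type*} {H : SimpleGraph W} {r : W} (h : ESF f H r) :
    ∃ C : ℕ, ∀ {V : Type} [Fintype V] (G : SimpleGraph V) (P : Set V),
      (∀ a b, G.Adj a b → (a ∈ P ↔ b ∉ P)) → (∀ c : Copy H G, c r ∈ P) →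
        G.edgeSet.ncard ≤ C * f (Fintype.card V) := by
  classical
  obtain ⟨C, hC⟩ := h
  refine ⟨C, fun {V} _ G P hP hc => ?_⟩
  set i : G ≃g G.map (Fintype.equivFin V) := SimpleGraph.Iso.map (Fintype.equivFin V) G with hi
  have h1 := hC (Fintype.card V) (G.map (Fintype.equivFin V)) (i.symm ⁻¹' P)
    (fun a b hab => hP _ _ (i.symm.map_adj_iff.2 hab)) (fun c => hc (i.symm.toCopy.comp c))
  rw [ncard_edgeSet] at h1 ⊢
  have h2 : #G.edgeFinset = #(G.map (Fintype.equivFin V)).edgeFinset := i.card_edgeFinset_eq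
  rwa [h2]

/-- The basic inequality. -/
theorem ESF.main (hf : Adm f) {W : Type*} [Fintype W] {H : SimpleGraph W} {r : W}
    (hd : ∀ n, extremalNumber n H ≤ f n) (h : ESF f H r) :
    ∃ C : ℕ, ∀ {V : Type} [Fintype V] (G : SimpleGraph V) (E : ℕ),
      (∀ Z : Set V, (∀ w ∈ Z, ∃ c : Copy H G, c r = w ∧ ∀ x, x ≠ r → c x ∉ Z) →
        (G.induce Z).edgeSet.ncard ≤ E) →
      G.edgeSet.ncard ≤ C * (E + f (Fintype.card V)) := by
  classical
  obtain ⟨C₀, hC₀⟩ := h.bound
  refine ⟨4 ^ Fintype.card W * (1 + (Fintype.card W ^ 2 + 1) + C₀) +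
    Fintype.card W, fun {V} _ G E hE => ?_⟩
  obtain ⟨S, hSw, hSt, hS⟩ := exists_sets H r G
  have hpos : 0 < Fintype.card W := Fintype.card_pos_iff.2 ⟨r⟩
  set n := Fintype.card V with hn
  rcases Nat.eq_zero_or_pos n with hn0 | hn0
  · have : IsEmpty V := Fintype.card_eq_zero_iff.1 (hn.symm.trans hn0)
    have h0 : G.edgeSet = ∅ := by
      ext e
      induction e with | _ a b
      exact this.elim a
    rw [h0, Set.ncard_empty]
    exact Nat.zero_le _
  have hB : ∀ X : Finset V,
      #{p : V × V | p.1 ∈ goodIn S X ∧ p.2 ∈ goodIn S X ∧ G.Adj p.1 p.2} ≤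
        2 * E + 2 * (extremalNumber n H + Fintype.card W ^ 2) +
          2 * (C₀ * f n) := by
    intro X
    have hgood : ∀ w ∈ goodIn S X, (∃ d : Copy H G, d r = w) →
        ∃ c : Copy H G, c r = w ∧ ∀ x, x ≠ r → c x ∉ goodIn S X := by
      intro w hw hd
      obtain ⟨c, hc, hcS⟩ := hS w hd
      refine ⟨c, hc, fun x hx hxG => ?_⟩
      exact disjoint_left.1 (mem_goodIn.1 hw).2 (hcS x hx) (mem_goodIn.1 hxG).1
    generalize goodIn S X = Y at hgood ⊢
    have h1 : #{p : V × V | p.1 ∈ Y.filter (fun w => ∃ d : Copy H G, d r = w) ∧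
        p.2 ∈ Y.filter (fun w => ∃ d : Copy H G, d r = w) ∧ G.Adj p.1 p.2} ≤ 2 * E := by
      refine (pairs_le_induce G _).trans (Nat.mul_le_mul_left _ ?_)
      rw [← ncard_edgeSet]
      refine hE _ fun w hw => ?_
      obtain ⟨hw1, hw2⟩ := mem_filter.1 (mem_coe.1 hw)
      obtain ⟨c, hc1, hc2⟩ := hgood w hw1 hw2
      exact ⟨c, hc1, fun x hx hxm => hc2 x hx (mem_filter.1 (mem_coe.1 hxm)).1⟩
    have h2 : #{p : V × V | p.1 ∈ Y.filter (fun w => ¬ ∃ d : Copy H G, d r = w) ∧
        p.2 ∈ Y.filter (fun w => ¬ ∃ d : Copy H G, d r = w) ∧ G.Adj p.1 p.2} ≤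
        2 * (extremalNumber n H + Fintype.card W ^ 2) := by
      refine pairs_le H G _ fun c hc => ?_
      exact (mem_filter.1 (hc r)).2 ⟨c, rfl⟩
    have h3 : #{p : V × V | p.1 ∈ Y ∧ p.2 ∈ Y ∧
        (crossG G (fun w => ∃ d : Copy H G, d r = w)).Adj p.1 p.2} ≤
        2 * (C₀ * f n) := by
      refine (pairs_le_induce _ Y).trans (Nat.mul_le_mul_left _ ?_)
      rw [← ncard_edgeSet]
      refine (hC₀ _ {w : (Y : Set V) | ∃ d : Copy H G, d r = w.1} ?_ ?_).trans ?_
      · rintro a b hab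
        have h4 : (crossG G (fun w => ∃ d : Copy H G, d r = w)).Adj a.1 b.1 := hab
        have h5 := h4.2
        simp only [Set.mem_ofPred_eq]
        tauto
      · intro c
        obtain ⟨d, hd⟩ := exists_copy_of_crossG c
        exact ⟨d, hd r⟩
      · refine Nat.mul_le_mul_left _ ?_
        have h6 : Fintype.card (Y : Set V) ≤ n := by simpa using card_le_univ Y
        exact hf.mono h6
    refine le_trans (card_le_card (t := _ ∪ _ ∪ _) ?_) ((card_union_le _ _).trans
      (Nat.add_le_add ((card_union_le _ _).trans (Nat.add_le_add h1 h2)) h3))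
    rintro ⟨a, b⟩ hab
    simp only [mem_filter, mem_univ, true_and] at hab
    obtain ⟨hab1, hab2, hab3⟩ := hab
    simp only [mem_union, mem_filter, mem_univ, true_and, crossG]
    by_cases ha : ∃ d : Copy H G, d r = a <;> by_cases hb : ∃ d : Copy H G, d r = b <;>
      simp only [ha, hb, hab1, hab2, hab3, not_true_eq_false, not_false_eq_true, and_true,
        and_false, or_true, or_false, iff_true, iff_false, iff_self]
  have hDc : #(univ.filter (fun p : V × V => G.Adj p.1 p.2)) = 2 * G.edgeSet.ncard := by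
    rw [ncard_edgeSet, two_mul_card_edgeFinset]
  have hmain := averaging (univ.filter (fun p : V × V => G.Adj p.1 p.2)) S
    (Fintype.card W - 1) _ hSt hSw (fun X => by
      refine le_trans (card_le_card ?_) (hB X)
      intro p hp
      simp only [mem_filter, mem_univ, true_and] at hp ⊢
      exact ⟨hp.2.1, hp.2.2, hp.1⟩)
  rw [hDc, Nat.sub_add_cancel hpos] at hmain
  have h5 : (Fintype.card W - 1) * n ≤ Fintype.card W * n :=
    Nat.mul_le_mul_right _ (Nat.sub_le _ _)
  have hdn := hd n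
  have hln := hf.lin n
  generalize extremalNumber n H = x at *
  generalize Fintype.card W = w at *
  generalize G.edgeSet.ncard = e at *
  generalize f n = y at *
  have h6 : e ≤ 4 ^ w * (E + (x + w ^ 2) + C₀ * y) + w * n := by
    have h7 : 4 ^ w * (2 * E + 2 * (x + w ^ 2) + 2 * (C₀ * y)) =
      2 * (4 ^ w * (E + (x + w ^ 2) + C₀ * y)) := by ring
    have h8 : 2 * (w - 1) * n = 2 * ((w - 1) * n) := by ring
    rw [h7, h8] at hmain
    omega
  refine h6.trans ?_
  have h9 : w ^ 2 ≤ w ^ 2 * n := Nat.le_mul_of_pos_right _ hn0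
  have h9' : w ^ 2 * n ≤ w ^ 2 * y := Nat.mul_le_mul_left _ hln
  have h10 : E + (x + w ^ 2) + C₀ * y ≤
      (1 + (w ^ 2 + 1) + C₀) * (E + y) := by
    nlinarith [Nat.zero_le (w ^ 2 * E), Nat.zero_le (C₀ * E)]
  calc 4 ^ w * (E + (x + w ^ 2) + C₀ * y) + w * n
      ≤ 4 ^ w * ((1 + (w ^ 2 + 1) + C₀) * (E + y)) + w * (E + y) := by
        refine Nat.add_le_add (Nat.mul_le_mul_left _ h10) (Nat.mul_le_mul_left _ ?_)
        omega
    _ = _ := by ring

/-- If one of the two rooted graphs satisfies `ESF` then the extremal number of the glued graph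
is `O(f)`. -/
theorem ESF.extremalNumber_glue_le (hf : Adm f) {V₁ V₂ : Type*} [Fintype V₁] [Fintype V₂]
    {H₁ : SimpleGraph V₁} {u : V₁} {H₂ : SimpleGraph V₂} {v : V₂}
    (hd₁ : ∀ n, extremalNumber n H₁ ≤ f n) (hd₂ : ∀ n, extremalNumber n H₂ ≤ f n)
    (h : ESF f H₂ v) :
    ∃ C : ℕ, ∀ n : ℕ, extremalNumber n (glue H₁ u H₂ v) ≤ C * f n := by
  classical
  obtain ⟨C, hC⟩ := h.main hf hd₂
  refine ⟨C * (Fintype.card V₁ ^ 2 + 2), fun n => ?_⟩
  have key := (extremalNumber_le_iff (V := Fin n) (glue H₁ u H₂ v)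
    (C * (Fintype.card V₁ ^ 2 + 2) * f n)).2 (by
    intro G _ hG
    rw [← ncard_edgeSet]
    rcases Nat.eq_zero_or_pos n with hn0 | hn0
    · subst hn0
      have h0 : G.edgeSet = ∅ := by
        ext e
        induction e with | _ a b
        exact a.elim0
      rw [h0, Set.ncard_empty]
      exact Nat.zero_le _
    refine (hC G (extremalNumber n H₁ + Fintype.card V₁ ^ 2) ?_).trans ?_
    · intro Z hZ
      have hfree : H₁.Free (G.induce Z) := by
        rintro ⟨c⟩
        obtain ⟨d, hd, hdZ⟩ := hZ (c u) (c u).2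
        refine hG (glue_isContained ((Copy.induce G Z).comp c) d ?_ ?_)
        · rw [hd]; rfl
        · intro x hx y hy hxy
          apply hdZ y hy
          rw [← hxy]
          exact (c x).2
      rw [ncard_edgeSet]
      refine (card_edgeFinset_le_extremalNumber hfree).trans (extremalNumber_le_add H₁ ?_)
      simpa using set_fintype_card_le_univ Z
    · rw [Fintype.card_fin, mul_assoc]
      refine Nat.mul_le_mul_left _ ?_
      have h1 : Fintype.card V₁ ^ 2 ≤ Fintype.card V₁ ^ 2 * n := Nat.le_mul_of_pos_right _ hn0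
      have h2 : Fintype.card V₁ ^ 2 * n ≤ Fintype.card V₁ ^ 2 * f n :=
        Nat.mul_le_mul_left _ (hf.lin n)
      have h3 := hd₁ n
      nlinarith)
  rwa [Fintype.card_fin] at key

/-- Closure of `ESF` under amalgamation at a cut vertex. -/
theorem esf_cut (hf : Adm f) {W : Type*} [Finite W] {H : SimpleGraph W} {S₁ S₂ S : Set W}
    (hS : S₁ ∪ S₂ = S) (hcross : ∀ a ∈ S₁, ∀ b ∈ S₂, H.Adj a b → a ∈ S₂ ∨ b ∈ S₁)
    {x v : W} (hx1 : x ∈ S₁) (hx2 : x ∈ S₂) (hx : ∀ a, a ∈ S₁ → a ∈ S₂ → a = x)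
    (hv1 : v ∈ S₁) (hv : v ∈ S) (hd : ∀ n, extremalNumber n (H.induce S) ≤ f n)
    (h₁ : ESF f (H.induce S₁) ⟨v, hv1⟩)
    (h₂ : ESF f (H.induce S₂) ⟨x, hx2⟩) : ESF f (H.induce S) ⟨v, hv⟩ := by
  classical
  have : Fintype W := Fintype.ofFinite W
  have hS₁ : S₁ ⊆ S := hS ▸ Set.subset_union_left
  have hS₂ : S₂ ⊆ S := hS ▸ Set.subset_union_right
  obtain ⟨C₁, hC₁⟩ := h₁.bound
  obtain ⟨C₂, hC₂⟩ := h₂.main hf (fun n => (extremalNumber_induce_mono H hS₂ n).trans (hd n))
  refine ⟨C₂ * (C₁ + 1), fun n G P hP hc => ?_⟩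
  have h3 := hC₂ G (C₁ * f n) (by
    intro Z hZ
    have hproper : ∀ a b, (G.induce Z).Adj a b →
        (a ∈ {w : Z | w.1 ∈ P} ↔ b ∉ {w : Z | w.1 ∈ P}) := by
      intro a b hab
      exact hP a.1 b.1 hab
    have hcopies : ∀ c : Copy (H.induce S₁) (G.induce Z),
        c ⟨v, hv1⟩ ∈ {w : Z | w.1 ∈ P} := by
      intro c
      obtain ⟨d, hd, hdZ⟩ := hZ (c ⟨x, hx1⟩) (c ⟨x, hx1⟩).2
      obtain ⟨e, he⟩ := exists_combine hS hcross ((Copy.induce G Z).comp c) d (by
        intro a b
        have ha : ((Copy.induce G Z).comp c) a = (c a).1 := rfl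
        rw [ha]
        constructor
        · intro hab
          have hb : b = ⟨x, hx2⟩ := by
            by_contra hb
            exact hdZ b hb (hab ▸ (c a).2)
          rw [hb, hd] at hab
          have := c.injective (Subtype.ext hab)
          rw [hb, this]
        · intro hab
          have hax : a.1 = x := hx a.1 a.2 (hab ▸ b.2)
          have ha' : a = ⟨x, hx1⟩ := Subtype.ext hax
          have hb' : b = ⟨x, hx2⟩ := Subtype.ext (hab ▸ hax)
          rw [ha', hb', hd])
      have h5 := hc e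
      rw [he v hv1 hv] at h5
      exact h5
    refine (hC₁ (G.induce Z) _ hproper hcopies).trans (Nat.mul_le_mul_left _ ?_)
    have h6 : Fintype.card Z ≤ n := by simpa using set_fintype_card_le_univ Z
    exact hf.mono h6)
  refine h3.trans ?_
  rw [Fintype.card_fin, mul_assoc]
  refine Nat.mul_le_mul_left _ ?_
  rw [add_mul, one_mul]

/-- Closure of `ESF` under adding disjoint parts. -/
theorem esf_disjoint (hf : Adm f) {W : Type*} [Finite W] {H : SimpleGraph W} {S₁ S₂ S : Set W}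
    (hS : S₁ ∪ S₂ = S) (hcross : ∀ a ∈ S₁, ∀ b ∈ S₂, ¬ H.Adj a b)
    {v : W} (hdis : Disjoint S₁ S₂)
    (hv1 : v ∈ S₁) (hv : v ∈ S) (hd : ∀ n, extremalNumber n (H.induce S) ≤ f n)
    (h₁ : ESF f (H.induce S₁) ⟨v, hv1⟩) :
    ESF f (H.induce S) ⟨v, hv⟩ := by
  classical
  have : Fintype W := Fintype.ofFinite W
  obtain ⟨C₁, hC₁⟩ := h₁
  have hS₁ : S₁ ⊆ S := hS ▸ Set.subset_union_left
  have hS₂ : S₂ ⊆ S := hS ▸ Set.subset_union_right
  refine ⟨C₁ + (1 + Fintype.card S₂ ^ 2 + Fintype.card S₁), fun n G P hP hc => ?_⟩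
  rcases Nat.eq_zero_or_pos n with hn0 | hn0
  · subst hn0
    have h0 : G.edgeSet = ∅ := by
      ext e
      induction e with | _ a b
      exact a.elim0
    rw [h0, Set.ncard_empty]
    exact Nat.zero_le _
  rw [add_mul]
  by_cases hall : ∀ c : Copy (H.induce S₁) G, c ⟨v, hv1⟩ ∈ P
  · exact (hC₁ n G P hP hall).trans (Nat.le_add_right _ _)
  · push Not at hall
    obtain ⟨c, hcP⟩ := hall
    set Z : Set (Fin n) := (Set.range c)ᶜ with hZ
    have hfree : (H.induce S₂).Free (G.induce Z) := by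
      rintro ⟨d⟩
      obtain ⟨e, he⟩ := exists_combine hS (fun a ha b hb hab => absurd hab (hcross a ha b hb))
        c ((Copy.induce G Z).comp d) (by
          intro a b
          constructor
          · intro hab
            have h5 : (d b).1 ∈ Z := (d b).2
            exact absurd ⟨a, hab⟩ h5
          · intro hab
            exact absurd (hab ▸ b.2) (Set.disjoint_left.1 hdis a.2))
      have h5 := hc e
      rw [he v hv1 hv] at h5
      exact hcP h5
    have h1 := card_edgeFinset_le_extremalNumber hfree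
    rw [← ncard_edgeSet] at h1
    have h2 : Fintype.card Z ≤ n := by simpa using set_fintype_card_le_univ Z
    have h3 := extremalNumber_le_add (H.induce S₂) h2
    have h4 := (extremalNumber_induce_mono H hS₂ n).trans (hd n)
    have h5 := ncard_edgeSet_le_induce G Z
    rw [Fintype.card_fin] at h5
    have h6 : Zᶜ.ncard ≤ Fintype.card S₁ := by
      rw [hZ, compl_compl, Set.ncard_eq_toFinset_card', Set.toFinset_range]
      exact card_image_le
    have h7 : Zᶜ.ncard * n ≤ Fintype.card S₁ * n := Nat.mul_le_mul_right _ h6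
    have hln := hf.lin n
    refine le_trans ?_ (Nat.le_add_left _ _)
    generalize extremalNumber n (H.induce S₂) = y at *
    generalize f n = z at *
    generalize Fintype.card S₁ = w at *
    generalize Fintype.card S₂ ^ 2 = w' at *
    have h8 : w' ≤ w' * n := Nat.le_mul_of_pos_right _ hn0
    have h9 : w' * n ≤ w' * z := Nat.mul_le_mul_left _ hln
    have h10 : w * n ≤ w * z := Nat.mul_le_mul_left _ hln
    nlinarith

/-- If all 2-connected blocks of `H[S]` satisfy `ESF` at all their vertices, then so does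
`H[S]`. -/
theorem esf_of_blocks_aux (hf : Adm f) {W : Type*} [Finite W] (H : SimpleGraph W)
    (hdH : ∀ n, extremalNumber n H ≤ f n) :
    ∀ (k : ℕ) (S : Set W), S.ncard = k →
      (∀ B, B ⊆ S → TwoConn H B → (∀ B', B' ⊆ S → TwoConn H B' → B ⊆ B' → B' ⊆ B) →
        ∀ r (hr : r ∈ B), ESF f (H.induce B) ⟨r, hr⟩) →
      ∀ v (hv : v ∈ S), ESF f (H.induce S) ⟨v, hv⟩ := by
  have hdS : ∀ S : Set W, ∀ n, extremalNumber n (H.induce S) ≤ f n := by
    intro S n
    exact (IsContained.extremalNumber_le ⟨Copy.induce H S⟩).trans (hdH n)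
  intro k
  induction k using Nat.strong_induction_on with
  | _ k ih =>
    intro S hSk hyp v hv
    rcases le_or_gt S.ncard 2 with h2 | h2
    · exact esf_of_esAt hf (hdS S) (esAt_small h2 hv)
    by_cases hsep : ∃ S₁ S₂, Sep H S S₁ S₂
    · -- inheritance of the hypothesis
      have inh : ∀ S₁ S₂, Sep H S S₁ S₂ → ∀ w (hw : w ∈ S₁), ESF f (H.induce S₁) ⟨w, hw⟩ := by
        intro S₁ S₂ hs w hw
        have hs' := hs
        obtain ⟨hU, hne1, hne2, hsub, hcross⟩ := hs'
        have hS₁ : S₁ ⊆ S := hU ▸ Set.subset_union_left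
        have hlt : S₁.ncard < k := by
          rw [← hSk]
          exact Set.ncard_lt_ncard (hS₁.ssubset_of_ne hne1) (Set.toFinite S)
        refine ih _ hlt S₁ rfl ?_ w hw
        intro B hB hBc hmax r hr
        refine hyp B (hB.trans hS₁) hBc ?_ r hr
        intro B' hB' hB'c hBB'
        rcases hB'c.subset_of_sep hB' hs with h3 | h3
        · exact hmax B' h3 hB'c hBB'
        · exfalso
          have h4 : B ⊆ S₁ ∩ S₂ := fun b hb => ⟨hB hb, h3 (hBB' hb)⟩
          have h5 : B.ncard ≤ 1 := Set.ncard_le_one_iff_subsingleton.2 (hsub.anti h4)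
          have h6 := hBc.1
          omega
      have step : ∀ S₁ S₂, Sep H S S₁ S₂ → v ∈ S₁ → ESF f (H.induce S) ⟨v, hv⟩ := by
        intro S₁ S₂ hs hv1
        have h1 := inh S₁ S₂ hs v hv1
        have hs' := hs
        obtain ⟨hU, hne1, hne2, hsub, hcross⟩ := hs'
        rcases Set.eq_empty_or_nonempty (S₁ ∩ S₂) with h0 | ⟨x, hx⟩
        · refine esf_disjoint hf hU ?_ (Set.disjoint_iff_inter_eq_empty.2 h0) hv1 hv (hdS S) h1
          intro a ha b hb hab
          rcases hcross a ha b hb hab with h3 | h3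
          · exact (h0.subset ⟨ha, h3⟩ : a ∈ (∅ : Set W))
          · exact (h0.subset ⟨h3, hb⟩ : b ∈ (∅ : Set W))
        · exact esf_cut hf hU hcross hx.1 hx.2 (fun a ha1 ha2 => hsub ⟨ha1, ha2⟩ hx) hv1 hv
            (hdS S) h1 (inh S₂ S₁ hs.symm x hx.2)
      obtain ⟨S₁, S₂, hs⟩ := hsep
      have hvU : v ∈ S₁ ∪ S₂ := hs.1.symm.subset hv
      rcases hvU with h | h
      · exact step S₁ S₂ hs h
      · exact step S₂ S₁ hs.symm h
    · exact hyp S subset_rfl (twoConn_of_not_sep (by omega) hsep) (fun B' hB' _ _ => hB') v hv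

lemma ESF.of_iso {W W' : Type*} {H : SimpleGraph W} {H' : SimpleGraph W'} {r : W}
    (e : H ≃g H') (h : ESF f H r) : ESF f H' (e r) := by
  obtain ⟨C, hC⟩ := h
  refine ⟨C, fun n G P hP hc => ?_⟩
  refine hC n G P hP fun c => ?_
  have h2 := hc (c.comp e.symm.toCopy)
  have h3 : (c.comp e.symm.toCopy) (e r) = c (e.symm (e r)) := rfl
  rw [h3, e.symm_apply_apply] at h2
  exact h2

/-- If all 2-connected blocks of the finite graph `H` satisfy `ESF` at all their vertices, then
so does `H`. -/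
theorem esf_of_isBlock (hf : Adm f) {W : Type*} [Finite W] (H : SimpleGraph W)
    (hdH : ∀ n, extremalNumber n H ≤ f n)
    (h : ∀ B, IsBlock H B → ∀ r : B, ESF f (H.induce B) r) (v : W) : ESF f H v := by
  have h1 := esf_of_blocks_aux hf H hdH _ Set.univ rfl (fun B _ hB hmax r hr =>
    h B ⟨hB, fun B' hB' hBB' => hmax B' (Set.subset_univ _) hB' hBB'⟩ ⟨r, hr⟩) v
    (Set.mem_univ v)
  exact h1.of_iso (SimpleGraph.induceUnivIso H)

end Pool.Agent.Lib.H45Glue
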