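import Pool.Agent.Lib.H45Glue.Apex

/-!
# Counting complete pairs of tuples
-/

namespace Pool.Agent.Lib.H45Glue

open SimpleGraph Finset Pool.Agent.Lib.Helper15.Glue

variable {V : Type*} [Fintype V]

open Classical in
/-- The pairs of tuples, the first one in `P`, which are completely joined. -/
noncomputable def cpl (G : SimpleGraph V) (P : Finset V) (a b : ℕ) :
    Finset ((Fin a → V) × (Fin b → V)) :=
  univ.filter (fun t => (∀ i, t.1 i ∈ P) ∧ ∀ i j, G.Adj (t.1 i) (t.2 j))

lemma mem_cpl {G : SimpleGraph V} {P : Finset V} {a b : ℕ} {t : (Fin a → V) × (Fin b → V)} :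
    t ∈ cpl G P a b ↔ (∀ i, t.1 i ∈ P) ∧ ∀ i j, G.Adj (t.1 i) (t.2 j) := by
  simp [cpl]

open Classical in
/-- Common neighbours of a tuple. -/
noncomputable def nbs (G : SimpleGraph V) {a : ℕ} (X : Fin a → V) : Finset V :=
  univ.filter (fun y => ∀ i, G.Adj (X i) y)

open Classical in
/-- Common neighbours in `P` of a tuple. -/
noncomputable def nbsP (G : SimpleGraph V) (P : Finset V) {b : ℕ} (Y : Fin b → V) : Finset V :=
  P.filter (fun x => ∀ j, G.Adj x (Y j))

open Classical in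
lemma card_cpl_left (G : SimpleGraph V) (P : Finset V) (a b : ℕ) :
    #(cpl G P a b) = ∑ X ∈ Fintype.piFinset (fun _ : Fin a => P), #(nbs G X) ^ b := by
  rw [cpl, card_filter, Fintype.sum_prod_type]
  have h1 : ∀ X : Fin a → V,
      (∑ Y : Fin b → V, if ((∀ i, X i ∈ P) ∧ ∀ i j, G.Adj (X i) (Y j)) then 1 else 0) =
      if (∀ i, X i ∈ P) then #(nbs G X) ^ b else 0 := by
    intro X
    by_cases hX : ∀ i, X i ∈ P
    · simp only [hX, implies_true, true_and, if_true]
      rw [← card_filter]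
      have h2 : univ.filter (fun Y : Fin b → V => ∀ i j, G.Adj (X i) (Y j)) =
          Fintype.piFinset (fun _ : Fin b => nbs G X) := by
        ext Y
        simp only [mem_filter, mem_univ, true_and, Fintype.mem_piFinset, nbs]
        exact ⟨fun h j i => h i j, fun h i j => h j i⟩
      rw [h2, Fintype.card_piFinset]
      simp
    · simp [hX]
  rw [sum_congr rfl fun X _ => h1 X, ← sum_filter]
  refine sum_congr ?_ fun _ _ => rfl
  ext X
  simp

open Classical in
lemma card_cpl_right (G : SimpleGraph V) (P : Finset V) (a b : ℕ) :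
    #(cpl G P a b) = ∑ Y : Fin b → V, #(nbsP G P Y) ^ a := by
  rw [cpl, card_filter, Fintype.sum_prod_type, sum_comm]
  refine sum_congr rfl fun Y _ => ?_
  rw [← card_filter]
  have h2 : univ.filter (fun X : Fin a → V => (∀ i, X i ∈ P) ∧ ∀ i j, G.Adj (X i) (Y j)) =
      Fintype.piFinset (fun _ : Fin a => nbsP G P Y) := by
    ext X
    simp only [mem_filter, mem_univ, true_and, Fintype.mem_piFinset, nbsP]
    exact ⟨fun h i => ⟨h.1 i, h.2 i⟩, fun h => ⟨fun i => (h i).1, fun i => (h i).2⟩⟩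
  rw [h2, Fintype.card_piFinset]
  simp

lemma young (l a r : ℕ) : l * a ^ r ≤ a ^ (r + 1) + l ^ (r + 1) := by
  rcases le_total a l with h | h
  · calc l * a ^ r ≤ l * l ^ r := Nat.mul_le_mul_left _ (Nat.pow_le_pow_left h r)
      _ = l ^ (r + 1) := by ring
      _ ≤ _ := Nat.le_add_left _ _
  · calc l * a ^ r ≤ a * a ^ r := Nat.mul_le_mul_right _ h
      _ = a ^ (r + 1) := by ring
      _ ≤ _ := Nat.le_add_right _ _

lemma young_left (G : SimpleGraph V) (P : Finset V) (r l : ℕ) :
    l * #(cpl G P (r + 1) r) ≤ #(cpl G P (r + 1) (r + 1)) +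
      l ^ (r + 1) * Fintype.card V ^ (r + 1) := by
  classical
  rw [card_cpl_left, card_cpl_left, mul_sum]
  refine (sum_le_sum fun X _ => young l #(nbs G X) r).trans ?_
  rw [sum_add_distrib, sum_const, smul_eq_mul, mul_comm (#_)]
  refine Nat.add_le_add_left (Nat.mul_le_mul_left _ ?_) _
  rw [Fintype.card_piFinset]
  simp only [prod_const, card_univ, Fintype.card_fin]
  exact Nat.pow_le_pow_left (card_le_univ _) _

lemma young_right (G : SimpleGraph V) (P : Finset V) (r l : ℕ) :
    l * #(cpl G P r (r + 1)) ≤ #(cpl G P (r + 1) (r + 1)) +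
      l ^ (r + 1) * Fintype.card V ^ (r + 1) := by
  classical
  rw [card_cpl_right, card_cpl_right, mul_sum]
  refine (sum_le_sum fun Y _ => young l #(nbsP G P Y) r).trans ?_
  rw [sum_add_distrib, sum_const, smul_eq_mul, mul_comm (#_), card_univ, Fintype.card_fun,
    Fintype.card_fin]

/-- The lower bound for the number of complete pairs. -/
lemma sidorenko (G : SimpleGraph V) (P : Finset V)
    (hP : ∀ a b, G.Adj a b → (a ∈ P ↔ b ∉ P)) (r : ℕ) :
    (G.edgeSet.ncard ^ (r + 1)) ^ (r + 1) ≤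
      (Fintype.card V ^ (2 * r)) ^ (r + 1) * #(cpl G P (r + 1) (r + 1)) := by
  classical
  set n := Fintype.card V with hn
  have hP' : ∀ a b, G.Adj a b → (a ∈ Pᶜ ↔ b ∉ Pᶜ) := by
    intro a b hab
    have := hP a b hab
    simp only [mem_compl]
    tauto
  have h1 : G.edgeSet.ncard ≤ ∑ y ∈ Pᶜ, G.degree y := by
    have := sub_le_sum_degree G Pᶜ hP' 0
    simpa using this
  have h2 : G.edgeSet.ncard ^ (r + 1) ≤ n ^ r * ∑ y ∈ Pᶜ, G.degree y ^ (r + 1) :=
    (Nat.pow_le_pow_left h1 _).trans ((pow_sum_le_card_mul_sum_pow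
      (fun _ _ => Nat.zero_le _) r).trans (Nat.mul_le_mul_right _
        (Nat.pow_le_pow_left (card_le_univ _) _)))
  have h3 : ∑ y ∈ Pᶜ, G.degree y ^ (r + 1) ≤
      ∑ X ∈ Fintype.piFinset (fun _ : Fin (r + 1) => P), #(nbs G X) := by
    have h4 : ∀ X : Fin (r + 1) → V, #(nbs G X) =
        ∑ y : V, if (∀ i, G.Adj (X i) y) then 1 else 0 := by
      intro X
      rw [nbs, card_filter]
    rw [sum_congr rfl fun X _ => h4 X, sum_comm]
    refine le_trans ?_ (sum_le_sum_of_subset (subset_univ Pᶜ))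
    refine sum_le_sum fun y hy => ?_
    rw [← card_filter]
    have h5 : Fintype.piFinset (fun _ : Fin (r + 1) => G.neighborFinset y) ⊆
        (Fintype.piFinset (fun _ : Fin (r + 1) => P)).filter (fun X => ∀ i, G.Adj (X i) y) := by
      intro X hX
      rw [Fintype.mem_piFinset] at hX
      rw [mem_filter, Fintype.mem_piFinset]
      have h6 : ∀ i, G.Adj (X i) y := fun i => ((mem_neighborFinset ..).1 (hX i)).symm
      refine ⟨fun i => ?_, h6⟩
      exact (hP _ _ (h6 i)).2 (mem_compl.1 hy)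
    refine le_trans (le_of_eq ?_) (card_le_card h5)
    rw [Fintype.card_piFinset]
    simp
  have h4 : (∑ X ∈ Fintype.piFinset (fun _ : Fin (r + 1) => P), #(nbs G X)) ^ (r + 1) ≤
      (n ^ (r + 1)) ^ r * #(cpl G P (r + 1) (r + 1)) := by
    rw [card_cpl_left]
    refine (pow_sum_le_card_mul_sum_pow (fun _ _ => Nat.zero_le _) r).trans
      (Nat.mul_le_mul_right _ (Nat.pow_le_pow_left ?_ _))
    rw [Nat.cast_id, Fintype.card_piFinset]
    simp only [prod_const, card_univ, Fintype.card_fin]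
    exact Nat.pow_le_pow_left (card_le_univ _) _
  calc (G.edgeSet.ncard ^ (r + 1)) ^ (r + 1)
      ≤ (n ^ r * ∑ X ∈ Fintype.piFinset (fun _ : Fin (r + 1) => P), #(nbs G X)) ^ (r + 1) :=
        Nat.pow_le_pow_left (h2.trans (Nat.mul_le_mul_left _ h3)) _
    _ = (n ^ r) ^ (r + 1) *
          (∑ X ∈ Fintype.piFinset (fun _ : Fin (r + 1) => P), #(nbs G X)) ^ (r + 1) :=
        mul_pow _ _ _
    _ ≤ (n ^ r) ^ (r + 1) * ((n ^ (r + 1)) ^ r * #(cpl G P (r + 1) (r + 1))) :=
        Nat.mul_le_mul_left _ h4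
    _ = _ := by ring

end Pool.Agent.Lib.H45Glue
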