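import Pool.Agent.Lib.H45Glue.C4
import Pool.Agent.Lib.H45Glue.Brown

/-!
# Graphs without `K_{3,3}`
-/

namespace Pool.Agent.Lib.H45Glue

open SimpleGraph Finset Pool.Agent.Lib.Helper15.Glue

/-- The graph contains the complete bipartite graph `K_{3,3}`. -/
def HasK33 {W : Type*} (H : SimpleGraph W) : Prop :=
  ∃ a b : Fin 3 → W, Function.Injective a ∧ Function.Injective b ∧ ∀ i j, H.Adj (a i) (b j)

/-- The quadratic form `x y + z ^ 2`. -/
def qf {F : Type*} [Field F] (v : F × F × F) : F := v.1 * v.2.1 + v.2.2 ^ 2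

/-- The relation `Q(x - y) = g` between two copies of `F ^ 3`. -/
def brownRel {F : Type*} [Field F] (g : F) : (F × F × F) ⊕ (F × F × F) →
    (F × F × F) ⊕ (F × F × F) → Prop
  | Sum.inl x, Sum.inr y => qf (x - y) = g
  | Sum.inr y, Sum.inl x => qf (x - y) = g
  | _, _ => False

/-- The bipartite graph of the relation `Q(x - y) = g`. -/
def brown {F : Type*} [Field F] (g : F) : SimpleGraph ((F × F × F) ⊕ (F × F × F)) where
  Adj := brownRel g
  symm := ⟨by
    rintro (a | a) (b | b) h
    · exact h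
    · exact h
    · exact h
    · exact h⟩
  loopless := ⟨by
    rintro (a | a) h
    · exact h
    · exact h⟩

lemma brown_no_K33 {F : Type*} [Field F] (h2 : (2 : F) ≠ 0) (g : F) (hg : ¬ IsSquare g) :
    ¬ HasK33 (brown g) := by
  have key : ∀ x y : Fin 3 → F × F × F, Function.Injective x → Function.Injective y →
      (∀ i j, qf (x i - y j) = g) → False := by
    intro x y hx hy h
    exact brown_core h2 g hg x y hx hy h
  rintro ⟨a, b, ha, hb, h⟩
  rcases h00 : a 0 with x0 | x0
  · -- all `b j` are on the right, all `a i` on the left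
    have hbr : ∀ j, ∃ y, b j = Sum.inr y := by
      intro j
      rcases hbj : b j with y | y
      · have := h 0 j
        rw [h00, hbj] at this
        exact this.elim
      · exact ⟨y, rfl⟩
    choose y hy using hbr
    have hal : ∀ i, ∃ x, a i = Sum.inl x := by
      intro i
      rcases hai : a i with x | x
      · exact ⟨x, rfl⟩
      · have := h i 0
        rw [hai, hy 0] at this
        exact this.elim
    choose x hx using hal
    refine key x y ?_ ?_ ?_
    · intro i j hij
      exact ha (by rw [hx i, hx j, hij])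
    · intro i j hij
      exact hb (by rw [hy i, hy j, hij])
    · intro i j
      have := h i j
      rw [hx i, hy j] at this
      exact this
  · have hbr : ∀ j, ∃ y, b j = Sum.inl y := by
      intro j
      rcases hbj : b j with y | y
      · exact ⟨y, rfl⟩
      · have := h 0 j
        rw [h00, hbj] at this
        exact this.elim
    choose y hy using hbr
    have hal : ∀ i, ∃ x, a i = Sum.inr x := by
      intro i
      rcases hai : a i with x | x
      · have := h i 0
        rw [hai, hy 0] at this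
        exact this.elim
      · exact ⟨x, rfl⟩
    choose x hx using hal
    refine key y x ?_ ?_ ?_
    · intro i j hij
      exact hb (by rw [hy i, hy j, hij])
    · intro i j hij
      exact ha (by rw [hx i, hx j, hij])
    · intro i j
      have := h j i
      rw [hx j, hy i] at this
      exact this

lemma free_brown {W : Type*} {H : SimpleGraph W} (h : HasK33 H) {F : Type*} [Field F]
    (h2 : (2 : F) ≠ 0) (g : F) (hg : ¬ IsSquare g) : H.Free (brown g) := by
  rintro ⟨c⟩
  obtain ⟨a, b, ha, hb, hab⟩ := h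
  exact brown_no_K33 h2 g hg ⟨fun i => c (a i), fun i => c (b i), c.injective.comp ha,
    c.injective.comp hb, fun i j => c.toHom.map_adj (hab i j)⟩

lemma le_brown (p : ℕ) [Fact p.Prime] (g : ZMod p) :
    p ^ 4 * (p - 1) ≤ (brown g).edgeSet.ncard := by
  classical
  let e : (ZMod p × ZMod p × ZMod p) × (ZMod p)ˣ × ZMod p →
      Sym2 ((ZMod p × ZMod p × ZMod p) ⊕ (ZMod p × ZMod p × ZMod p)) :=
    fun t => s(Sum.inl t.1, Sum.inr (t.1.1 - (t.2.1 : ZMod p),
      t.1.2.1 - (g - t.2.2 ^ 2) * ((t.2.1⁻¹ : (ZMod p)ˣ) : ZMod p), t.1.2.2 - t.2.2))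
  have he : Function.Injective e := by
    rintro ⟨⟨x1, x2, x3⟩, t, r⟩ ⟨⟨x1', x2', x3'⟩, t', r'⟩ h
    simp only [e, Sym2.eq_iff, Sum.inl.injEq, Sum.inr.injEq, Prod.mk.injEq, reduceCtorEq,
      false_and, or_false] at h
    obtain ⟨⟨h1, h2, h3⟩, h4, -, h5⟩ := h
    subst h1 h2 h3
    have h6 : (t : ZMod p) = t' := sub_right_injective h4
    have h7 : r = r' := sub_right_injective h5
    have h8 : t = t' := Units.ext h6
    subst h7 h8
    rfl
  have h1 : Set.range e ⊆ (brown g).edgeSet := by
    rintro _ ⟨⟨⟨x1, x2, x3⟩, t, r⟩, rfl⟩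
    show qf (_ - _) = g
    simp only [qf, Prod.mk_sub_mk, sub_sub_cancel]
    have h3 : (t : ZMod p) * ((g - r ^ 2) * ((t⁻¹ : (ZMod p)ˣ) : ZMod p)) = g - r ^ 2 := by
      rw [mul_comm (g - r ^ 2), ← mul_assoc, Units.mul_inv, one_mul]
    rw [h3]
    ring
  have h2 := Set.ncard_le_ncard h1 (Set.toFinite _)
  refine le_trans (le_of_eq ?_) h2
  rw [← Set.image_univ, Set.ncard_image_of_injective _ he, Set.ncard_univ,
    Nat.card_eq_fintype_card]
  simp only [Fintype.card_prod, ZMod.card, ZMod.card_units_eq_totient]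
  rw [Nat.totient_prime Fact.out]
  ring

lemma big_of_K33 {f : ℕ → ℕ} (hf : Adm f) {W : Type*} [Fintype W] {H : SimpleGraph W}
    (hd : ∀ n, extremalNumber n H ≤ f n) (h : HasK33 H) : Big f 2 := by
  classical
  refine ⟨256 * (1 + Fintype.card W ^ 2), fun n => ?_⟩
  have hln := hf.lin n
  rcases lt_or_ge n 128 with hn | hn
  · have h2 : n ^ (2 * 2 + 1) ≤ (256 * n) ^ (2 + 1) := by
      have h3 : n ^ 2 ≤ 256 ^ 3 := by nlinarith
      calc n ^ (2 * 2 + 1) = n ^ 3 * n ^ 2 := by ring
        _ ≤ n ^ 3 * 256 ^ 3 := Nat.mul_le_mul_left _ h3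
        _ = _ := by ring
    refine h2.trans (Nat.pow_le_pow_left ?_ _)
    refine Nat.mul_le_mul ?_ hln
    nlinarith [Nat.zero_le (Fintype.card W ^ 2)]
  · set k := Nat.findGreatest (fun k => 16 * k ^ 3 ≤ n) n with hk
    have hk2 : 2 ≤ k := Nat.le_findGreatest (by omega) (by omega)
    have hkn : 16 * k ^ 3 ≤ n := by
      have := Nat.findGreatest_spec (P := fun k => 16 * k ^ 3 ≤ n) (m := 2) (n := n) (by omega)
        (by norm_num; omega)
      exact this
    have hkn' : n < 16 * (k + 1) ^ 3 := by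
      by_contra hcon
      push Not at hcon
      have h1 : k + 1 ≤ n := by nlinarith [Nat.zero_le (k ^ 2), Nat.zero_le (k ^ 3)]
      have h2 : k + 1 ≤ Nat.findGreatest (fun k => 16 * k ^ 3 ≤ n) n :=
        Nat.le_findGreatest h1 hcon
      omega
    obtain ⟨p, hp, hp1, hp2⟩ := Nat.exists_prime_lt_and_le_two_mul k (by omega)
    have : Fact p.Prime := ⟨hp⟩
    have hp3 : p ≠ 2 := by omega
    have h20 : (2 : ZMod p) ≠ 0 := by
      intro h0
      have h1 : ((2 : ℕ) : ZMod p) = 0 := by exact_mod_cast h0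
      rw [ZMod.natCast_eq_zero_iff] at h1
      exact hp3 ((Nat.prime_dvd_prime_iff_eq hp Nat.prime_two).1 h1)
    obtain ⟨g, hg⟩ := FiniteField.exists_nonsquare (F := ZMod p) (by
      rw [ZMod.ringChar_zmod_n]
      exact hp3)
    have h1 : 2 * p ^ 3 ≤ n := by
      have h2 : p ^ 3 ≤ (2 * k) ^ 3 := Nat.pow_le_pow_left hp2 3
      have h3 : (2 * k) ^ 3 = 8 * k ^ 3 := by ring
      omega
    have h4 : n < 16 * p ^ 3 := by
      have h5 : (k + 1) ^ 3 ≤ p ^ 3 := Nat.pow_le_pow_left hp1 3
      omega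
    have h8 : p ^ 4 * (p - 1) ≤ f n + Fintype.card W ^ 2 := by
      have h9 := card_edgeFinset_le_extremalNumber (free_brown h h20 g hg)
      rw [← ncard_edgeSet] at h9
      have h10 : Fintype.card ((ZMod p × ZMod p × ZMod p) ⊕ (ZMod p × ZMod p × ZMod p)) =
          2 * p ^ 3 := by
        simp only [Fintype.card_sum, Fintype.card_prod, ZMod.card]
        ring
      rw [h10] at h9
      have h11 := extremalNumber_le_add H h1
      have h12 := hd n
      have h13 := le_brown p g
      omega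
    have h14 : p ^ 5 ≤ 2 * (1 + Fintype.card W ^ 2) * f n := by
      have h16 : Fintype.card W ^ 2 ≤ Fintype.card W ^ 2 * f n :=
        Nat.le_mul_of_pos_right _ (by omega)
      have h17 : p ^ 5 ≤ 2 * (p ^ 4 * (p - 1)) := by
        have h18 : p ≤ 2 * (p - 1) := by omega
        calc p ^ 5 = p ^ 4 * p := by ring
          _ ≤ p ^ 4 * (2 * (p - 1)) := Nat.mul_le_mul_left _ h18
          _ = _ := by ring
      have h19 : f n + Fintype.card W ^ 2 ≤ (1 + Fintype.card W ^ 2) * f n := by
        rw [add_mul, one_mul]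
        omega
      calc p ^ 5 ≤ 2 * (p ^ 4 * (p - 1)) := h17
        _ ≤ 2 * ((1 + Fintype.card W ^ 2) * f n) := Nat.mul_le_mul_left _ (h8.trans h19)
        _ = _ := by ring
    calc n ^ (2 * 2 + 1) ≤ (16 * p ^ 3) ^ 5 := Nat.pow_le_pow_left h4.le _
      _ ≤ (128 * p ^ 5) ^ 3 := by
        have h20 : (16 * p ^ 3) ^ 5 = 1048576 * (p ^ 5) ^ 3 := by ring
        have h21 : (128 * p ^ 5) ^ 3 = 2097152 * (p ^ 5) ^ 3 := by ring
        rw [h20, h21]
        exact Nat.mul_le_mul_right _ (by norm_num)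
      _ ≤ (128 * (2 * (1 + Fintype.card W ^ 2) * f n)) ^ 3 :=
        Nat.pow_le_pow_left (Nat.mul_le_mul_left _ h14) _
      _ = _ := by ring

end Pool.Agent.Lib.H45Glue
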